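import Mathlib

/-!
Counting independent sets: Caro-Wei, an exponential form of Zykov's clique bound with a gain for
extra related pairs, and the greedy lower bound.
-/

namespace Pool.Agent.MP_6574cc_co.H69

open Finset
open scoped Classical

variable {α : Type*} [DecidableEq α]

/-- closed neighbourhood of `v` inside `U` -/
noncomputable def nb (T : α → α → Prop) (U : Finset α) (v : α) : Finset α := U.filter (T v)

/-- no two different members are related -/
def Indep (T : α → α → Prop) (S : Finset α) : Prop := ∀ a ∈ S, ∀ b ∈ S, T a b → a = b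

/-- independent `s`-subsets of `U` -/
noncomputable def Ind (T : α → α → Prop) (U : Finset α) (s : ℕ) : Finset (Finset α) :=
  (powersetCard s U).filter (Indep T)

omit [DecidableEq α] in
lemma mem_nb {T : α → α → Prop} {U : Finset α} {v a : α} : a ∈ nb T U v ↔ a ∈ U ∧ T v a := by
  simp [nb]

omit [DecidableEq α] in
lemma nb_subset (T : α → α → Prop) (U : Finset α) (v : α) : nb T U v ⊆ U := filter_subset _ _

omit [DecidableEq α] in
lemma nb_mono (T : α → α → Prop) {U W : Finset α} (h : U ⊆ W) (v : α) : nb T U v ⊆ nb T W v :=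
  fun _ ha => mem_nb.2 ⟨h (mem_nb.1 ha).1, (mem_nb.1 ha).2⟩

omit [DecidableEq α] in
lemma mem_Ind {T : α → α → Prop} {U S : Finset α} {s : ℕ} :
    S ∈ Ind T U s ↔ S ⊆ U ∧ S.card = s ∧ Indep T S := by
  simp [Ind, mem_powersetCard, and_assoc]

omit [DecidableEq α] in
lemma nb_card_pos {T : α → α → Prop} (hr : ∀ a, T a a) {U : Finset α} {v : α} (hv : v ∈ U) :
    0 < (nb T U v).card := card_pos.2 ⟨v, mem_nb.2 ⟨hv, hr v⟩⟩

lemma caro_wei {T : α → α → Prop} (hr : ∀ a, T a a) (hs : ∀ a b, T a b → T b a) (U : Finset α) :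
    ∃ R ⊆ U, Indep T R ∧ ∑ v ∈ U, (1 / ((nb T U v).card : ℝ)) ≤ R.card := by
  induction U using Finset.strongInduction with
  | H U ih =>
  rcases U.eq_empty_or_nonempty with rfl | hne
  · exact ⟨∅, Subset.refl _, fun a ha => by simp at ha, by simp⟩
  obtain ⟨v, hv, hmin⟩ := exists_min_image U (fun v => (nb T U v).card) hne
  have hvN : v ∈ nb T U v := mem_nb.2 ⟨hv, hr v⟩
  have hss : U \ nb T U v ⊂ U := sdiff_ssubset (nb_subset _ _ _) ⟨v, hvN⟩
  obtain ⟨R, hRU, hRi, hR⟩ := ih _ hss
  have hvR : v ∉ R := fun h => (mem_sdiff.1 (hRU h)).2 hvN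
  refine ⟨insert v R, ?_, ?_, ?_⟩
  · exact insert_subset hv (hRU.trans sdiff_subset)
  · intro a ha b hb hab
    rcases mem_insert.1 ha with ha | ha <;> rcases mem_insert.1 hb with hb | hb
    · rw [ha, hb]
    · exfalso
      have := mem_sdiff.1 (hRU hb)
      exact this.2 (mem_nb.2 ⟨this.1, ha ▸ hab⟩)
    · exfalso
      have := mem_sdiff.1 (hRU ha)
      exact this.2 (mem_nb.2 ⟨this.1, hb ▸ hs _ _ hab⟩)
    · exact hRi a ha b hb hab
  · rw [card_insert_of_notMem hvR, ← sum_sdiff (nb_subset T U v)]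
    push_cast
    have hpos : (0 : ℝ) < (nb T U v).card := by exact_mod_cast nb_card_pos hr hv
    have h1 : ∑ u ∈ nb T U v, (1 / ((nb T U u).card : ℝ)) ≤ 1 := by
      calc _ ≤ ∑ _u ∈ nb T U v, (1 / ((nb T U v).card : ℝ)) := by
            refine sum_le_sum fun u hu => one_div_le_one_div_of_le hpos ?_
            exact_mod_cast hmin u (nb_subset _ _ _ hu)
        _ = 1 := by rw [sum_const, nsmul_eq_mul]; field_simp
    have h2 : ∑ u ∈ U \ nb T U v, (1 / ((nb T U u).card : ℝ)) ≤
        ∑ u ∈ U \ nb T U v, (1 / ((nb T (U \ nb T U v) u).card : ℝ)) := by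
      refine sum_le_sum fun u hu => one_div_le_one_div_of_le ?_ ?_
      · exact_mod_cast nb_card_pos hr hu
      · exact_mod_cast card_le_card (nb_mono T sdiff_subset u)
    linarith

lemma ind_succ {T : α → α → Prop} (hr : ∀ a, T a a) (hs : ∀ a b, T a b → T b a) (U : Finset α)
    (s : ℕ) :
    (s + 1) * (Ind T U (s + 1)).card = ∑ v ∈ U, (Ind T (U \ nb T U v) s).card := by
  have h1 : ∀ v ∈ U, (Ind T (U \ nb T U v) s).card =
      ((Ind T U (s + 1)).filter (fun S => v ∈ S)).card := by
    intro v hv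
    refine card_bij (fun S _ => insert v S) ?_ ?_ ?_
    · intro S hS
      obtain ⟨h1, h2, h3⟩ := mem_Ind.1 hS
      have hvS : v ∉ S := fun h => (mem_sdiff.1 (h1 h)).2 (mem_nb.2 ⟨hv, hr v⟩)
      refine mem_filter.2 ⟨mem_Ind.2 ⟨insert_subset hv (h1.trans sdiff_subset), ?_, ?_⟩,
        mem_insert_self _ _⟩
      · rw [card_insert_of_notMem hvS, h2]
      · intro a ha b hb hab
        rcases mem_insert.1 ha with ha | ha <;> rcases mem_insert.1 hb with hb | hb
        · rw [ha, hb]
        · exfalso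
          have := mem_sdiff.1 (h1 hb)
          exact this.2 (mem_nb.2 ⟨this.1, ha ▸ hab⟩)
        · exfalso
          have := mem_sdiff.1 (h1 ha)
          exact this.2 (mem_nb.2 ⟨this.1, hb ▸ hs _ _ hab⟩)
        · exact h3 a ha b hb hab
    · intro S hS S' hS' h
      have hvS : v ∉ S := fun h => (mem_sdiff.1 ((mem_Ind.1 hS).1 h)).2 (mem_nb.2 ⟨hv, hr v⟩)
      have hvS' : v ∉ S' := fun h => (mem_sdiff.1 ((mem_Ind.1 hS').1 h)).2 (mem_nb.2 ⟨hv, hr v⟩)
      have := congrArg (fun X => X.erase v) h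
      simpa [erase_insert hvS, erase_insert hvS'] using this
    · intro S hS
      obtain ⟨hS, hvS⟩ := mem_filter.1 hS
      obtain ⟨h1, h2, h3⟩ := mem_Ind.1 hS
      refine ⟨S.erase v, mem_Ind.2 ⟨?_, ?_, ?_⟩, insert_erase hvS⟩
      · intro a ha
        obtain ⟨hav, ha⟩ := mem_erase.1 ha
        exact mem_sdiff.2 ⟨h1 ha, fun h => hav (h3 v hvS a ha (mem_nb.1 h).2).symm⟩
      · rw [card_erase_of_mem hvS, h2]; rfl
      · intro a ha b hb hab
        exact h3 a (mem_of_mem_erase ha) b (mem_of_mem_erase hb) hab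
  rw [sum_congr rfl h1]
  simp only [card_filter]
  rw [sum_comm]
  rw [mul_comm, ← smul_eq_mul, ← sum_const]
  refine sum_congr rfl fun S hS => ?_
  obtain ⟨h1, h2, -⟩ := mem_Ind.1 hS
  rw [← card_filter, filter_mem_eq_inter, inter_eq_right.2 h1, h2]

omit [DecidableEq α] in
lemma ind_zero (T : α → α → Prop) (U : Finset α) : (Ind T U 0).card = 1 := by
  have : Ind T U 0 = {∅} := by
    ext S
    simp only [mem_Ind, card_eq_zero, mem_singleton]
    constructor
    · exact fun h => h.2.1
    · rintro rfl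
      exact ⟨empty_subset _, rfl, fun a ha => by simp at ha⟩
  rw [this]; rfl

/-- greedy lower bound -/
lemma ind_lower {T : α → α → Prop} (hr : ∀ a, T a a) (hs : ∀ a b, T a b → T b a) (V : Finset α)
    (D : ℝ) (hD0 : 0 ≤ D) (hD : ∀ v ∈ V, ((nb T V v).card : ℝ) ≤ D) (s : ℕ) :
    ∀ U ⊆ V, ∀ x : ℝ, x ≤ U.card → s * D ≤ x →
      ∏ i ∈ range s, (x - i * D) ≤ (s.factorial : ℝ) * (Ind T U s).card := by
  induction s with
  | zero => intro U _ x _ _; simp [ind_zero]
  | succ s ih =>
    intro U hU x hx hsx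
    have e := congrArg (fun m : ℕ => (m : ℝ)) (ind_succ hr hs U s)
    simp only [Nat.cast_mul, Nat.cast_sum] at e
    push_cast at hsx
    rw [prod_range_succ', Nat.factorial_succ]
    push_cast at e ⊢
    have h1 : ∀ v ∈ U, ∏ i ∈ range s, (x - (i + 1) * D) ≤
        (s.factorial : ℝ) * (Ind T (U \ nb T U v) s).card := by
      intro v hv
      have h2 := ih (U \ nb T U v) (sdiff_subset.trans hU) (x - D) ?_ (by linarith)
      · refine le_of_eq_of_le (prod_congr rfl fun i _ => by ring) h2
      · rw [card_sdiff_of_subset (nb_subset _ _ _), Nat.cast_sub (card_le_card (nb_subset _ _ _))]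
        have : ((nb T U v).card : ℝ) ≤ (nb T V v).card := by
          exact_mod_cast card_le_card (nb_mono T hU v)
        linarith [hD v (hU hv)]
    have h3 := sum_le_sum h1
    rw [sum_const, nsmul_eq_mul, ← mul_sum, ← e] at h3
    have h4 : 0 ≤ ∏ i ∈ range s, (x - (i + 1) * D) := by
      refine prod_nonneg fun i hi => ?_
      have : (i : ℝ) ≤ s := by exact_mod_cast (mem_range.1 hi).le
      nlinarith
    nlinarith

lemma exp_tangent {c t : ℝ} (hc0 : 0 ≤ c) (hc1 : c ≤ 1) (ht : 0 < t) :
    Real.exp (c * (1 - 1 / t)) ≤ 1 + c * (t - 1) := by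
  have h1 := convexOn_exp.2 (Set.mem_univ (1 - 1 / t)) (Set.mem_univ 0) hc0 (sub_nonneg.2 hc1)
    (by ring)
  simp only [smul_eq_mul, mul_zero, add_zero, Real.exp_zero, mul_one] at h1
  have h2 : Real.exp (1 - 1 / t) ≤ t := by
    have h3 := Real.add_one_le_exp (1 / t - 1)
    have h4 : Real.exp (1 - 1 / t) * Real.exp (1 / t - 1) = 1 := by
      rw [← Real.exp_add]; simp
    have h5 := Real.exp_pos (1 - 1 / t)
    have h6 : Real.exp (1 - 1 / t) * (1 / t) ≤ 1 := by nlinarith
    rwa [mul_one_div, div_le_one ht] at h6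
  nlinarith

omit [DecidableEq α] in
lemma avg_exp (U : Finset α) (d : α → ℝ) (hd : ∀ v ∈ U, 0 < d v) {M a : ℝ} (hM : 0 < M)
    (ha0 : 0 ≤ a) (haM : a ≤ M) (hsum : ∑ v ∈ U, 1 / d v ≤ M) :
    ∑ v ∈ U, Real.exp (-(a * d v / U.card)) ≤ U.card * Real.exp (-(a / M)) := by
  rcases U.eq_empty_or_nonempty with rfl | hne
  · simp
  have hU : (0 : ℝ) < U.card := by exact_mod_cast card_pos.2 hne
  have hc1 : a / M ≤ 1 := (div_le_one hM).2 haM
  have hc0 : 0 ≤ a / M := div_nonneg ha0 hM.le
  have h1 : ∀ v ∈ U, Real.exp (-(a * d v / U.card)) ≤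
      Real.exp (-(a / M)) * (1 + a / M * (U.card / M * (1 / d v) - 1)) := by
    intro v hv
    have hv := hd v hv
    have h2 := exp_tangent hc0 hc1 (t := U.card / M * (1 / d v)) (by positivity)
    have h3 : -(a * d v / U.card) = -(a / M) + a / M * (1 - 1 / (U.card / M * (1 / d v))) := by
      field_simp; ring
    rw [h3, Real.exp_add]
    exact mul_le_mul_of_nonneg_left h2 (Real.exp_pos _).le
  refine (sum_le_sum h1).trans ?_
  rw [← mul_sum, sum_add_distrib, ← mul_sum, sum_sub_distrib, ← mul_sum]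
  simp only [sum_const, nsmul_eq_mul, mul_one]
  have h4 : (U.card : ℝ) / M * ∑ v ∈ U, 1 / d v ≤ U.card := by
    calc _ ≤ (U.card : ℝ) / M * M := mul_le_mul_of_nonneg_left hsum (by positivity)
      _ = _ := by field_simp
  have h5 : a / M * ((U.card : ℝ) / M * ∑ v ∈ U, 1 / d v - U.card) ≤ 0 :=
    mul_nonpos_of_nonneg_of_nonpos hc0 (by linarith)
  have := Real.exp_pos (-(a / M))
  nlinarith

/-- number of ordered related pairs -/
noncomputable def pairs (B : α → α → Prop) (U : Finset α) : ℝ := ∑ v ∈ U, ((nb B U v).card : ℝ)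

lemma pairs_sdiff {B : α → α → Prop} (hs : ∀ a b, B a b → B b a) {U N : Finset α} (hN : N ⊆ U)
    {D : ℝ} (hD : ∀ v ∈ U, ((nb B U v).card : ℝ) ≤ D) :
    pairs B U ≤ pairs B (U \ N) + 2 * (N.card * D) := by
  have h1 : ∑ v ∈ N, ((nb B U v).card : ℝ) ≤ N.card * D := by
    calc _ ≤ ∑ _v ∈ N, D := sum_le_sum fun v hv => hD v (hN hv)
      _ = _ := by rw [sum_const, nsmul_eq_mul]
  have h2 : ∀ v, ((nb B U v).card : ℝ) = (nb B (U \ N) v).card + (nb B N v).card := by
    intro v
    have : nb B U v = nb B (U \ N) v ∪ nb B N v := by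
      unfold nb; rw [← filter_union, sdiff_union_of_subset hN]
    rw [this, card_union_of_disjoint]
    · push_cast; rfl
    · exact Disjoint.mono (nb_subset _ _ _) (nb_subset _ _ _) sdiff_disjoint
  have h3 : ∑ v ∈ U \ N, ((nb B N v).card : ℝ) ≤ N.card * D := by
    have : ∑ v ∈ U \ N, (nb B N v).card = ∑ u ∈ N, (nb B (U \ N) u).card := by
      simp only [nb, card_filter]
      rw [sum_comm]
      refine sum_congr rfl fun u _ => sum_congr rfl fun v _ => ?_
      exact if_congr ⟨hs _ _, hs _ _⟩ rfl rfl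
    have h4 : ∑ v ∈ U \ N, ((nb B N v).card : ℝ) = ∑ u ∈ N, ((nb B (U \ N) u).card : ℝ) := by
      exact_mod_cast this
    rw [h4]
    refine le_trans (sum_le_sum fun u _ => ?_) h1
    exact_mod_cast card_le_card (nb_mono B sdiff_subset u)
  unfold pairs
  rw [← sum_sdiff hN, sum_congr rfl (fun v _ => h2 v), sum_add_distrib]
  linarith

lemma exp_gain {p r : ℝ} (_hp : 0 ≤ p) (hr : 0 ≤ r) (h : p + r ≤ 1 / 4) :
    Real.exp (-(p + r)) ≤ Real.exp (-p) - r / 2 := by
  have h1 : Real.exp (-p) = Real.exp (-(p + r)) * Real.exp r := by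
    rw [← Real.exp_add]; congr 1; ring
  have h2 := Real.add_one_le_exp r
  have h3 := Real.add_one_le_exp (-(p + r))
  have h4 := Real.exp_pos (-(p + r))
  nlinarith

/-- exponential Zykov bound with a gain `τ` from the pairs of `G` outside `T` -/
lemma zykov {T G : α → α → Prop} (hr : ∀ a, T a a) (hs : ∀ a b, T a b → T b a)
    (hsG : ∀ a b, G a b → G b a) (hTG : ∀ a b, T a b → G a b) (V : Finset α) (M : ℕ) (hM0 : 0 < M)
    (hM : ∀ R ⊆ V, Indep T R → R.card ≤ M) (τ D n : ℝ) (hτ : 0 ≤ τ) (hn : (V.card : ℝ) ≤ n)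
    (s : ℕ) : ∀ U ⊆ V,
      (τ = 0 ∨ ((∀ v ∈ V, ((nb G V v).card : ℝ) ≤ D) ∧ n / 2 + s * D ≤ U.card ∧ s * D ≤ n / 8 ∧
        2 * τ * n ^ 2 + 2 * s * D ^ 2 ≤ pairs (fun a b => G a b ∧ ¬ T a b) U)) →
      (s.factorial : ℝ) * (Ind G U s).card ≤
        (U.card : ℝ) ^ s * Real.exp (-(s * (s - 1) / 2 * (1 / M + τ))) := by
  have hrG : ∀ a, G a a := fun a => hTG a a (hr a)
  have hMr : (0 : ℝ) < M := by exact_mod_cast hM0
  induction s with
  | zero => intro U _ _; simp [ind_zero]
  | succ s ih =>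
    intro U hU hg
    by_cases hsM : M < s + 1
    · have : Ind G U (s + 1) = ∅ := by
        refine eq_empty_of_forall_notMem fun S hS => ?_
        obtain ⟨h1, h2, h3⟩ := mem_Ind.1 hS
        have := hM S (h1.trans hU) (fun a ha b hb hab => h3 a ha b hb (hTG _ _ hab))
        omega
      rw [this]; simp only [card_empty, Nat.cast_zero, mul_zero]; positivity
    rcases U.eq_empty_or_nonempty with rfl | hne
    · have : Ind G (∅ : Finset α) (s + 1) = ∅ := by
        refine eq_empty_of_forall_notMem fun S hS => ?_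
        obtain ⟨h1, h2, -⟩ := mem_Ind.1 hS
        rw [subset_empty.1 h1] at h2; simp at h2
      rw [this]; simp
    have hUpos : (0 : ℝ) < U.card := by exact_mod_cast card_pos.2 hne
    have hUn : (U.card : ℝ) ≤ n := le_trans (by exact_mod_cast card_le_card hU) hn
    have e := congrArg (fun m : ℕ => (m : ℝ)) (ind_succ hrG hsG U s)
    simp only [Nat.cast_mul, Nat.cast_sum] at e
    have hs0 : (0 : ℝ) ≤ s := Nat.cast_nonneg s
    set E := Real.exp (-(s * (s - 1) / 2 * (1 / M + τ))) with hE
    have hEpos : 0 < E := Real.exp_pos _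
    have h1 : ∀ v ∈ U, (s.factorial : ℝ) * (Ind G (U \ nb G U v) s).card ≤
        (U.card : ℝ) ^ s * E * Real.exp (-(s * (nb G U v).card / U.card)) := by
      intro v hv
      have hc : ((U \ nb G U v).card : ℝ) = U.card - (nb G U v).card := by
        rw [card_sdiff_of_subset (nb_subset _ _ _), Nat.cast_sub (card_le_card (nb_subset _ _ _))]
      have h2 := ih (U \ nb G U v) (sdiff_subset.trans hU) ?_
      · refine h2.trans ?_
        have h3 : ((U \ nb G U v).card : ℝ) ≤ U.card * Real.exp (-((nb G U v).card / U.card)) := by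
          have := Real.add_one_le_exp (-(((nb G U v).card : ℝ) / U.card))
          calc _ = U.card * (-(((nb G U v).card : ℝ) / U.card) + 1) := by rw [hc]; field_simp; ring
            _ ≤ _ := mul_le_mul_of_nonneg_left this hUpos.le
        have h4 := pow_le_pow_left₀ (Nat.cast_nonneg _) h3 s
        rw [mul_pow, ← Real.exp_nat_mul] at h4
        have h5 : (s : ℝ) * -(((nb G U v).card : ℝ) / U.card) = -(s * (nb G U v).card / U.card) := by
          ring
        rw [h5] at h4
        calc _ ≤ (U.card : ℝ) ^ s * Real.exp (-(s * (nb G U v).card / U.card)) * E :=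
              mul_le_mul_of_nonneg_right h4 hEpos.le
          _ = _ := by ring
      · rcases hg with hg | ⟨g1, g2, g3, g4⟩
        · exact Or.inl hg
        · have hvD : ((nb G U v).card : ℝ) ≤ D := le_trans
            (by exact_mod_cast card_le_card (nb_mono G hU v)) (g1 v (hU hv))
          have hD0 : 0 ≤ D := le_trans (Nat.cast_nonneg _) hvD
          push_cast at g2 g3 g4
          refine Or.inr ⟨g1, by rw [hc]; linarith, by linarith, ?_⟩
          have := pairs_sdiff (B := fun a b => G a b ∧ ¬ T a b)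
            (fun a b h => ⟨hsG _ _ h.1, fun h' => h.2 (hs _ _ h')⟩) (nb_subset G U v) (D := D) ?_
          · nlinarith
          · intro u hu
            refine le_trans ?_ (g1 u (hU hu))
            have hsub : nb (fun a b => G a b ∧ ¬ T a b) U u ⊆ nb G V u := fun a ha =>
              mem_nb.2 ⟨hU (mem_nb.1 ha).1, (mem_nb.1 ha).2.1⟩
            exact_mod_cast card_le_card hsub
    obtain ⟨R, hRU, hRi, hR⟩ := caro_wei hr hs U
    have hRM : (R.card : ℝ) ≤ M := by exact_mod_cast hM R (hRU.trans hU) hRi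
    have h6 := avg_exp U (fun v => ((nb T U v).card : ℝ))
      (fun v hv => by exact_mod_cast nb_card_pos hr hv) hMr hs0
      (by have : s ≤ M := by omega
          exact_mod_cast this) (hR.trans hRM)
    have hsplit : ∀ v, ((nb G U v).card : ℝ) =
        (nb T U v).card + (nb (fun a b => G a b ∧ ¬ T a b) U v).card := by
      intro v
      have : nb G U v = nb T U v ∪ nb (fun a b => G a b ∧ ¬ T a b) U v := by
        ext a; simp only [mem_nb, mem_union]
        have := hTG v a
        tauto
      rw [this, card_union_of_disjoint]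
      · push_cast; rfl
      · exact disjoint_left.2 fun a h1 h2 => (mem_nb.1 h2).2.2 (mem_nb.1 h1).2
    have h7 : ∑ v ∈ U, Real.exp (-(s * (nb G U v).card / U.card)) ≤
        U.card * Real.exp (-(s * (1 / M + τ))) := by
      rcases hg with hg | ⟨g1, g2, g3, g4⟩
      · rw [hg, add_zero, mul_one_div]
        refine le_trans (sum_le_sum fun v _ => Real.exp_le_exp.2 ?_) h6
        rw [hsplit v, neg_le_neg_iff]
        gcongr
        linarith [Nat.cast_nonneg (α := ℝ) (nb (fun a b => G a b ∧ ¬ T a b) U v).card]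
      · push_cast at g2 g3 g4
        obtain ⟨v0, hv0⟩ := hne
        have hD0 : 0 ≤ D := le_trans (Nat.cast_nonneg _) (g1 v0 (hU hv0))
        have h8 : ∀ v ∈ U, Real.exp (-(s * (nb G U v).card / U.card)) ≤
            Real.exp (-(s * (nb T U v).card / U.card)) -
              s / U.card / 2 * (nb (fun a b => G a b ∧ ¬ T a b) U v).card := by
          intro v hv
          have hvD : ((nb G U v).card : ℝ) ≤ D := le_trans
            (by exact_mod_cast card_le_card (nb_mono G hU v)) (g1 v (hU hv))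
          have := exp_gain (p := s * (nb T U v).card / U.card)
            (r := s * (nb (fun a b => G a b ∧ ¬ T a b) U v).card / U.card) (by positivity)
            (by positivity) ?_
          · rw [hsplit v, mul_add, add_div]
            refine this.trans (le_of_eq (by ring))
          · rw [← add_div, ← mul_add, ← hsplit v, div_le_iff₀ hUpos]
            nlinarith
        refine (sum_le_sum h8).trans ?_
        rw [sum_sub_distrib, ← mul_sum]
        have h9 : s * τ * U.card ≤
            s / U.card / 2 * ∑ v ∈ U, ((nb (fun a b => G a b ∧ ¬ T a b) U v).card : ℝ) := by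
          have h10 : 2 * τ * (U.card : ℝ) ^ 2 ≤ pairs (fun a b => G a b ∧ ¬ T a b) U := by
            have : (U.card : ℝ) ^ 2 ≤ n ^ 2 := pow_le_pow_left₀ hUpos.le hUn 2
            nlinarith [sq_nonneg D]
          calc s * τ * U.card = s / U.card / 2 * (2 * τ * (U.card : ℝ) ^ 2) := by field_simp
            _ ≤ _ := mul_le_mul_of_nonneg_left h10 (by positivity)
        have h11 : Real.exp (-(s / M)) - s * τ ≤ Real.exp (-(s * (1 / M + τ))) := by
          have e1 : Real.exp (-(s * (1 / M + τ))) = Real.exp (-(s / M)) * Real.exp (-(s * τ)) := by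
            rw [← Real.exp_add]; congr 1; ring
          have e2 := Real.add_one_le_exp (-(s * τ))
          have e3 : Real.exp (-((s : ℝ) / M)) ≤ 1 := Real.exp_le_one_iff.2 (by
            rw [neg_nonpos]; positivity)
          have e4 := Real.exp_pos (-((s : ℝ) / M))
          have e5 : 0 ≤ s * τ := by positivity
          rw [e1]; nlinarith
        nlinarith
    have h12 := sum_le_sum h1
    rw [← mul_sum, ← mul_sum, ← e] at h12
    rw [Nat.factorial_succ]
    push_cast at h12 ⊢
    have h13 : Real.exp (-((s + 1) * (s + 1 - 1) / 2 * (1 / M + τ))) =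
        E * Real.exp (-(s * (1 / M + τ))) := by
      rw [hE, ← Real.exp_add]; congr 1; ring
    rw [h13]
    calc _ = (s.factorial : ℝ) * ((s + 1) * (Ind G U (s + 1)).card) := by ring
      _ ≤ _ := h12
      _ ≤ (U.card : ℝ) ^ s * E * (U.card * Real.exp (-(s * (1 / M + τ)))) :=
          mul_le_mul_of_nonneg_left h7 (by positivity)
      _ = _ := by ring

end Pool.Agent.MP_6574cc_co.H69
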