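import Mathlib
import Pool.Agent.MP_6574cc_co.H69.Zykov

/-!
Hypergraph side: links, the upper bound for `S_r`-free families, the modular construction and
cloning of a vertex.
-/

namespace Pool.Agent.MP_6574cc_co.H69

open Finset
open scoped Classical

variable {α : Type*} [DecidableEq α]

/-- no two edges `Z + a`, `Z + b` with `a, b` in a common edge -/
def SF (F : Finset (Finset α)) : Prop :=
  ∀ (Z : Finset α) (a b : α), a ≠ b → a ∉ Z → b ∉ Z → insert a Z ∈ F → insert b Z ∈ F →
    ∀ C ∈ F, a ∈ C → b ∈ C → False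

/-- no two edges `Z + a`, `Z + b` with `a, b` in a common edge disjoint from `Z` -/
def AF (F : Finset (Finset α)) : Prop :=
  ∀ (Z : Finset α) (a b : α), a ≠ b → a ∉ Z → b ∉ Z → insert a Z ∈ F → insert b Z ∈ F →
    ∀ C ∈ F, a ∈ C → b ∈ C → Disjoint C Z → False

/-- link of a vertex -/
def link (F : Finset (Finset α)) (t : α) : Finset (Finset α) :=
  (F.filter (fun C => t ∈ C)).image (fun C => C.erase t)

lemma mem_link {F : Finset (Finset α)} {t : α} {Z : Finset α} :
    Z ∈ link F t ↔ t ∉ Z ∧ insert t Z ∈ F := by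
  simp only [link, mem_image, mem_filter]
  constructor
  · rintro ⟨C, ⟨h1, h2⟩, rfl⟩
    exact ⟨notMem_erase _ _, by rwa [insert_erase h2]⟩
  · rintro ⟨h1, h2⟩
    exact ⟨insert t Z, ⟨h2, mem_insert_self _ _⟩, erase_insert h1⟩

lemma card_link (F : Finset (Finset α)) (t : α) :
    (link F t).card = (F.filter (fun C => t ∈ C)).card := by
  refine card_image_of_injOn fun C hC C' hC' h => ?_
  have h1 := (mem_filter.1 (mem_coe.1 hC)).2
  have h2 := (mem_filter.1 (mem_coe.1 hC')).2
  rw [← insert_erase h1, ← insert_erase h2]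
  exact congrArg _ h

lemma link_card_mem {F : Finset (Finset α)} {U : Finset α} {r : ℕ}
    (hF : F ⊆ powersetCard (r + 1) U) {t : α} {Z : Finset α} (hZ : Z ∈ link F t) :
    Z ⊆ U ∧ Z.card = r := by
  obtain ⟨h1, h2⟩ := mem_link.1 hZ
  obtain ⟨h3, h4⟩ := mem_powersetCard.1 (hF h2)
  rw [card_insert_of_notMem h1] at h4
  exact ⟨(subset_insert _ _).trans h3, by omega⟩

lemma sum_deg {F : Finset (Finset α)} {U : Finset α} {k : ℕ} (hF : F ⊆ powersetCard k U) :
    ∑ t ∈ U, (F.filter (fun C => t ∈ C)).card = k * F.card := by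
  simp only [card_filter]
  rw [sum_comm, mul_comm, ← smul_eq_mul, ← sum_const]
  refine sum_congr rfl fun S hS => ?_
  obtain ⟨h1, h2⟩ := mem_powersetCard.1 (hF hS)
  rw [← card_filter, filter_mem_eq_inter, inter_eq_right.2 h1, h2]

lemma cnt_le {F : Finset (Finset α)} {U : Finset α} {k : ℕ} (hF : F ⊆ powersetCard k U)
    (S : Finset α) : (F.filter (fun C => S ⊆ C)).card ≤ U.card ^ (k - S.card) := by
  refine le_trans ?_ (Nat.choose_le_pow U.card (k - S.card))
  rw [← card_powersetCard]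
  refine card_le_card_of_injOn (fun C => C \ S) ?_ ?_
  · intro C hC
    obtain ⟨h1, h2⟩ := mem_filter.1 (mem_coe.1 hC)
    obtain ⟨h3, h4⟩ := mem_powersetCard.1 (hF h1)
    exact mem_coe.2 (mem_powersetCard.2 ⟨sdiff_subset.trans h3, by
      rw [card_sdiff_of_subset h2, h4]⟩)
  · intro C hC C' hC' h
    have h1 := (mem_filter.1 (mem_coe.1 hC)).2
    have h2 := (mem_filter.1 (mem_coe.1 hC')).2
    rw [← sdiff_union_of_subset h1, ← sdiff_union_of_subset h2]
    exact congrArg (· ∪ S) h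

lemma SF.mono {F F' : Finset (Finset α)} (h : SF F) (hs : F' ⊆ F) : SF F' :=
  fun Z a b h1 h2 h3 h4 h5 C h6 h7 h8 => h Z a b h1 h2 h3 (hs h4) (hs h5) C (hs h6) h7 h8

lemma AF.mono {F F' : Finset (Finset α)} (h : AF F) (hs : F' ⊆ F) : AF F' :=
  fun Z a b h1 h2 h3 h4 h5 C h6 h7 h8 => h Z a b h1 h2 h3 (hs h4) (hs h5) C (hs h6) h7 h8

lemma filter_notMem_subset {F : Finset (Finset α)} {U : Finset α} {k : ℕ}
    (hF : F ⊆ powersetCard k U) (t : α) :
    F.filter (fun C => ¬ t ∈ C) ⊆ powersetCard k (U.erase t) := by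
  intro C hC
  obtain ⟨h1, h2⟩ := mem_filter.1 hC
  obtain ⟨h3, h4⟩ := mem_powersetCard.1 (hF h1)
  exact mem_powersetCard.2 ⟨fun a ha => mem_erase.2 ⟨fun h => h2 (h ▸ ha), h3 ha⟩, h4⟩

lemma exp_div_le {a M : ℝ} (ha : 0 < a) (hM : 0 < M) :
    Real.exp (-(a / M)) ≤ M * (Real.exp (-1) / a) := by
  have h1 := Real.add_one_le_exp (a / M - 1)
  have h2 : Real.exp (-(a / M)) * Real.exp (a / M - 1) = Real.exp (-1) := by
    rw [← Real.exp_add]; congr 1; ring
  have h3 := Real.exp_pos (-(a / M))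
  have h4 : Real.exp (-(a / M)) * (a / M) ≤ Real.exp (-1) := by nlinarith
  calc _ = Real.exp (-(a / M)) * (a / M) * (M / a) := by field_simp
    _ ≤ Real.exp (-1) * (M / a) := mul_le_mul_of_nonneg_right h4 (by positivity)
    _ = _ := by ring

omit [DecidableEq α] in
lemma exists_max_indep (T : α → α → Prop) (U : Finset α) (hne : U.Nonempty) :
    ∃ R ⊆ U, Indep T R ∧ 0 < R.card ∧ ∀ R' ⊆ U, Indep T R' → R'.card ≤ R.card := by
  obtain ⟨R, hR, hmax⟩ := exists_max_image (U.powerset.filter (Indep T)) card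
    ⟨∅, mem_filter.2 ⟨empty_mem_powerset _, fun a ha => by simp at ha⟩⟩
  obtain ⟨h1, h2⟩ := mem_filter.1 hR
  have h3 : ∀ R' ⊆ U, Indep T R' → R'.card ≤ R.card :=
    fun R' a b => hmax R' (mem_filter.2 ⟨mem_powerset.2 a, b⟩)
  obtain ⟨v, hv⟩ := hne
  have := h3 {v} (singleton_subset_iff.2 hv) (fun a ha b hb _ => by
    rw [mem_singleton.1 ha, mem_singleton.1 hb])
  exact ⟨R, mem_powerset.1 h1, h2, by simpa using this, h3⟩

/-- a vertex of small degree in an `S`-free family -/
lemma sf_min_deg {F : Finset (Finset α)} {U : Finset α} {s : ℕ} (hs : 2 ≤ s)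
    (hF : F ⊆ powersetCard (s + 1) U) (hSF : SF F) (hne : U.Nonempty) :
    ∃ t ∈ U, (s.factorial : ℝ) * (F.filter (fun C => t ∈ C)).card ≤
      Real.exp (-1) / (s * (s - 1) / 2) * (U.card : ℝ) ^ s := by
  set T : α → α → Prop := fun a b => a = b ∨ ¬ ∃ C ∈ F, a ∈ C ∧ b ∈ C with hT
  have hr : ∀ a, T a a := fun a => Or.inl rfl
  have hsy : ∀ a b, T a b → T b a := by
    rintro a b (h | h)
    · exact Or.inl h.symm
    · exact Or.inr fun ⟨C, h1, h2, h3⟩ => h ⟨C, h1, h3, h2⟩
  obtain ⟨R, hRU, hRi, hRpos, hmax⟩ := exists_max_indep T U hne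
  have hz := zykov hr hsy hsy (fun _ _ h => h) U R.card hRpos hmax 0 0 U.card le_rfl le_rfl s U
    (Subset.refl _) (Or.inl rfl)
  have hdisj : ∀ a ∈ R, ∀ b ∈ R, a ≠ b → Disjoint (link F a) (link F b) := by
    intro a ha b hb hab
    refine disjoint_left.2 fun Z h1 h2 => ?_
    have h3 : ¬ T a b := fun h => hab (hRi a ha b hb h)
    simp only [hT, not_or, not_not] at h3
    obtain ⟨C, c1, c2, c3⟩ := h3.2
    exact hSF Z a b hab (mem_link.1 h1).1 (mem_link.1 h2).1 (mem_link.1 h1).2 (mem_link.1 h2).2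
      C c1 c2 c3
  have hsub : R.biUnion (link F) ⊆ Ind T U s := by
    intro Z hZ
    obtain ⟨t, -, ht⟩ := mem_biUnion.1 hZ
    obtain ⟨h1, h2⟩ := link_card_mem hF ht
    refine mem_Ind.2 ⟨h1, h2, ?_⟩
    rintro a ha b hb (h | h)
    · exact h
    · exact absurd ⟨_, (mem_link.1 ht).2, mem_insert_of_mem ha, mem_insert_of_mem hb⟩ h
  have hcard := card_le_card hsub
  rw [card_biUnion hdisj] at hcard
  obtain ⟨t, ht, hmin⟩ := exists_min_image R (fun t => (link F t).card) (card_pos.1 hRpos)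
  have h1 : R.card * (link F t).card ≤ (Ind T U s).card := by
    refine le_trans ?_ hcard
    rw [← smul_eq_mul]; exact card_nsmul_le_sum _ _ _ hmin
  refine ⟨t, hRU ht, ?_⟩
  rw [← card_link]
  have hM : (0 : ℝ) < R.card := by exact_mod_cast hRpos
  have hs' : (2 : ℝ) ≤ s := by exact_mod_cast hs
  have ha : (0 : ℝ) < s * (s - 1) / 2 := by
    have : (0 : ℝ) < s - 1 := by linarith
    positivity
  have h2 := exp_div_le ha hM
  rw [add_zero, mul_one_div] at hz
  have h3 : (R.card : ℝ) * (link F t).card ≤ (Ind T U s).card := by exact_mod_cast h1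
  have h4 : (0 : ℝ) < s.factorial := by exact_mod_cast Nat.factorial_pos s
  have h5 : (0 : ℝ) ≤ (U.card : ℝ) ^ s := by positivity
  refine le_of_mul_le_mul_left ?_ hM
  calc _ = (s.factorial : ℝ) * (R.card * (link F t).card) := by ring
    _ ≤ (s.factorial : ℝ) * (Ind T U s).card := mul_le_mul_of_nonneg_left h3 h4.le
    _ ≤ _ := hz
    _ ≤ (U.card : ℝ) ^ s * (R.card * (Real.exp (-1) / (s * (s - 1) / 2))) :=
        mul_le_mul_of_nonneg_left h2 h5
    _ = _ := by ring

lemma pow_succ_ge (x : ℝ) (hx : 0 ≤ x) (s : ℕ) :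
    x ^ (s + 1) + (s + 1) * x ^ s ≤ (x + 1) ^ (s + 1) := by
  induction s with
  | zero => simp
  | succ s ih =>
    have h1 : 0 ≤ x ^ s := pow_nonneg hx s
    have h2 : (0 : ℝ) ≤ s := Nat.cast_nonneg s
    push_cast
    calc x ^ (s + 1 + 1) + (s + 1 + 1) * x ^ (s + 1)
        ≤ (x ^ (s + 1) + (s + 1) * x ^ s) * (x + 1) := by
          have : 0 ≤ (s + 1) * x ^ s := by positivity
          ring_nf; nlinarith
      _ ≤ (x + 1) ^ (s + 1) * (x + 1) := mul_le_mul_of_nonneg_right ih (by linarith)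
      _ = _ := by ring

/-- upper bound for `S`-free families -/
lemma sf_upper {s : ℕ} (hs : 2 ≤ s) (U : Finset α) :
    ∀ F ⊆ powersetCard (s + 1) U, SF F → ((s + 1).factorial : ℝ) * F.card ≤
      Real.exp (-1) / (s * (s - 1) / 2) * ((U.card : ℝ) + 1) ^ (s + 1) := by
  have hs' : (2 : ℝ) ≤ s := by exact_mod_cast hs
  have hu : 0 < Real.exp (-1) / (s * (s - 1) / 2) := by
    have : (0 : ℝ) < s - 1 := by linarith
    positivity
  induction U using Finset.strongInduction with
  | H U ih =>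
  intro F hF hSF
  rcases U.eq_empty_or_nonempty with rfl | hne
  · have : F = ∅ := by
      rw [powersetCard_eq_empty.2 (by simp)] at hF
      exact subset_empty.1 hF
    rw [this]; simp only [card_empty, Nat.cast_zero, mul_zero]; positivity
  obtain ⟨t, ht, h1⟩ := sf_min_deg hs hF hSF hne
  have h2 := ih (U.erase t) (erase_ssubset ht) _ (filter_notMem_subset hF t)
    (hSF.mono (filter_subset _ _))
  have h3 : ((U.erase t).card : ℝ) + 1 = U.card := by
    exact_mod_cast card_erase_add_one ht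
  rw [h3] at h2
  have h4 : (F.card : ℝ) =
      (F.filter (fun C => t ∈ C)).card + (F.filter (fun C => ¬ t ∈ C)).card := by
    exact_mod_cast (card_filter_add_card_filter_not (s := F) (fun C => t ∈ C)).symm
  have h5 := pow_succ_ge (U.card : ℝ) (Nat.cast_nonneg _) s
  rw [h4, mul_add]
  have h6 : ((s + 1).factorial : ℝ) * (F.filter (fun C => t ∈ C)).card ≤
      (s + 1) * (Real.exp (-1) / (s * (s - 1) / 2) * (U.card : ℝ) ^ s) := by
    rw [Nat.factorial_succ]; push_cast
    rw [mul_assoc]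
    exact mul_le_mul_of_nonneg_left h1 (by positivity)
  nlinarith

lemma SF.pullback {G G' : Finset (Finset α)} (φ : α → α) (h : SF G')
    (hφ : ∀ C ∈ G, Set.InjOn φ C ∧ C.image φ ∈ G') : SF G := by
  intro Z a b hab haZ hbZ h1 h2 C hC ha hb
  refine h (Z.image φ) (φ a) (φ b) ?_ ?_ ?_ ?_ ?_ (C.image φ) (hφ C hC).2
    (mem_image_of_mem _ ha) (mem_image_of_mem _ hb)
  · exact fun e => hab ((hφ C hC).1 ha hb e)
  · intro e
    obtain ⟨z, hz, e⟩ := mem_image.1 e
    have := (hφ _ h1).1 (mem_coe.2 (mem_insert_of_mem hz)) (mem_coe.2 (mem_insert_self _ _)) e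
    exact haZ (this ▸ hz)
  · intro e
    obtain ⟨z, hz, e⟩ := mem_image.1 e
    have := (hφ _ h2).1 (mem_coe.2 (mem_insert_of_mem hz)) (mem_coe.2 (mem_insert_self _ _)) e
    exact hbZ (this ▸ hz)
  · rw [← image_insert]; exact (hφ _ h1).2
  · rw [← image_insert]; exact (hφ _ h2).2

/-- cloning a vertex of maximum degree -/
lemma clone {U : Finset α} {v : α} (hv : v ∈ U) {k : ℕ} {G' : Finset (Finset α)}
    (hG : G' ⊆ powersetCard (k + 1) (U.erase v)) (hSF : SF G') (hne : (U.erase v).Nonempty) :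
    ∃ G ⊆ powersetCard (k + 1) U, SF G ∧
      (U.erase v).card * G'.card + (k + 1) * G'.card ≤ (U.erase v).card * G.card := by
  obtain ⟨t, ht, hmax⟩ := exists_max_image (U.erase v) (fun t => (link G' t).card) hne
  have h1 : (k + 1) * G'.card ≤ (U.erase v).card * (link G' t).card := by
    rw [← sum_deg hG, ← smul_eq_mul]
    refine sum_le_card_nsmul _ _ _ fun u hu => ?_
    rw [← card_link]; exact hmax u hu
  have hvZ : ∀ Z ∈ link G' t, v ∉ Z := fun Z hZ h => notMem_erase v U ((link_card_mem hG hZ).1 h)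
  have hvC : ∀ C ∈ G', v ∉ C := fun C hC h =>
    notMem_erase v U ((mem_powersetCard.1 (hG hC)).1 h)
  refine ⟨G' ∪ (link G' t).image (insert v), ?_, ?_, ?_⟩
  · refine union_subset (hG.trans (powersetCard_mono (erase_subset _ _))) ?_
    intro C hC
    obtain ⟨Z, hZ, rfl⟩ := mem_image.1 hC
    obtain ⟨z1, z2⟩ := link_card_mem hG hZ
    exact mem_powersetCard.2 ⟨insert_subset hv (z1.trans (erase_subset _ _)), by
      rw [card_insert_of_notMem (hvZ Z hZ), z2]⟩
  · refine hSF.pullback (fun a => if a = v then t else a) fun C hC => ?_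
    have key : ∀ Z : Finset α, v ∉ Z → Z.image (fun a => if a = v then t else a) = Z := by
      intro Z hZ
      conv_rhs => rw [← image_id (s := Z)]
      refine image_congr fun a ha => ?_
      have : a ≠ v := fun e => hZ (e ▸ ha)
      simp [this]
    rcases mem_union.1 hC with hC | hC
    · refine ⟨?_, by rw [key C (hvC C hC)]; exact hC⟩
      intro a ha b hb e
      have h1 : a ≠ v := fun e => hvC C hC (e ▸ ha)
      have h2 : b ≠ v := fun e => hvC C hC (e ▸ hb)
      simpa [h1, h2] using e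
    · obtain ⟨Z, hZ, rfl⟩ := mem_image.1 hC
      obtain ⟨z1, z2⟩ := mem_link.1 hZ
      refine ⟨?_, by rw [image_insert, key Z (hvZ Z hZ)]; simpa using z2⟩
      intro a ha b hb e
      by_cases h1 : a = v <;> by_cases h2 : b = v
      · rw [h1, h2]
      · exfalso
        simp only [h1, h2, if_true, if_false] at e
        rcases mem_insert.1 (mem_coe.1 hb) with h | h
        · exact h2 h
        · exact z1 (e ▸ h)
      · exfalso
        simp only [h1, h2, if_true, if_false] at e
        rcases mem_insert.1 (mem_coe.1 ha) with h | h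
        · exact h1 h
        · exact z1 (e ▸ h)
      · simpa [h1, h2] using e
  · rw [card_union_of_disjoint, card_image_of_injOn]
    · rw [mul_add]; omega
    · intro Z hZ Z' hZ' e
      rw [← erase_insert (hvZ Z hZ), ← erase_insert (hvZ Z' hZ')]
      exact congrArg (·.erase v) e
    · refine disjoint_left.2 fun C h1 h2 => ?_
      obtain ⟨Z, -, rfl⟩ := mem_image.1 h2
      exact hvC _ h1 (mem_insert_self _ _)

lemma prod_ge (k : ℕ) (hk : 2 ≤ k) {q : ℝ} (hq : q = k * (k + 1) / 2) :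
    Real.exp (-1) ≤ ∏ i ∈ range k, (1 - (i : ℝ) / q) := by
  have hk' : (2 : ℝ) ≤ k := by exact_mod_cast hk
  have hqk : 0 < q - k := by rw [hq]; nlinarith
  have h1 : ∀ i ∈ range k, Real.exp (-((i : ℝ) / (q - k))) ≤ 1 - (i : ℝ) / q := by
    intro i hi
    have hi' : (i : ℝ) ≤ k := by exact_mod_cast (mem_range.1 hi).le
    have hi0 : (0 : ℝ) ≤ i := Nat.cast_nonneg i
    have h2 := Real.add_one_le_exp ((i : ℝ) / (q - k))
    have h3 : Real.exp (-((i : ℝ) / (q - k))) * Real.exp ((i : ℝ) / (q - k)) = 1 := by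
      rw [← Real.exp_add]; simp
    have h4 := Real.exp_pos (-((i : ℝ) / (q - k)))
    have hq0 : 0 < q := by linarith
    have h5 : 1 ≤ (1 - (i : ℝ) / q) * ((i : ℝ) / (q - k) + 1) := by
      have : (1 - (i : ℝ) / q) * ((i : ℝ) / (q - k) + 1) - 1 = i * (k - i) / (q * (q - k)) := by
        field_simp; ring
      have h6 : 0 ≤ (i : ℝ) * (k - i) / (q * (q - k)) := by
        have : 0 ≤ (k : ℝ) - i := by linarith
        positivity
      linarith
    have h7 : 0 < (i : ℝ) / (q - k) + 1 := by positivity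
    refine le_of_mul_le_mul_right ?_ h7
    nlinarith
  refine le_trans (le_of_eq ?_) (prod_le_prod (fun _ _ => (Real.exp_pos _).le) h1)
  rw [← Real.exp_sum, sum_neg_distrib, ← sum_div]
  congr 2
  have h8 : ∑ i ∈ range k, (i : ℝ) = k * (k - 1) / 2 := by
    clear hq hqk h1 hk' hk
    induction k with
    | zero => simp
    | succ k ih => rw [sum_range_succ, ih]; push_cast; ring
  rw [h8, eq_div_iff hqk.ne', hq]; ring

/-- the modular construction -/
lemma sf_lower (k : ℕ) (hk : 2 ≤ k) (U : Finset α) {q : ℝ} (hq : q = k * (k + 1) / 2)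
    (hU : k * q ≤ U.card) :
    ∃ G ⊆ powersetCard k U, SF G ∧
      Real.exp (-1) / q * (U.card - k * q) ^ k ≤ (k.factorial : ℝ) * G.card := by
  have hk' : (2 : ℝ) ≤ k := by exact_mod_cast hk
  obtain ⟨Q, hQ⟩ : ∃ Q : ℕ, (Q : ℝ) = q := by
    refine ⟨(k + 1).choose 2, ?_⟩
    rw [Nat.cast_choose_two, hq]; push_cast; ring
  have hqk : (k : ℝ) + 1 ≤ q := by rw [hq]; nlinarith
  have hq0 : 0 < q := by linarith
  have hQ0 : 0 < Q := by
    have : (0 : ℝ) < Q := by rw [hQ]; exact hq0
    exact_mod_cast this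
  have : NeZero Q := ⟨hQ0.ne'⟩
  set idx : α → ℕ := fun a => if h : a ∈ U then (U.equivFin ⟨a, h⟩ : ℕ) else 0 with hidx
  have hidx1 : ∀ a ∈ U, idx a < U.card := fun a ha => by simp [hidx, ha]
  have hidx2 : ∀ a ∈ U, ∀ b ∈ U, idx a = idx b → a = b := by
    intro a ha b hb e
    simp only [hidx, ha, hb, dif_pos] at e
    have := U.equivFin.injective (Fin.ext e)
    exact congrArg Subtype.val this
  set f : α → ZMod Q := fun a => (idx a : ZMod Q) with hf
  set T : α → α → Prop := fun a b => f a = f b with hT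
  have hD : ∀ v ∈ U, ((nb T U v).card : ℝ) ≤ U.card / q + 1 := by
    intro v _
    have h1 : (nb T U v).card ≤ (range (U.card / Q + 1)).card := by
      refine card_le_card_of_injOn (fun a => idx a / Q) ?_ ?_
      · intro a ha
        have := hidx1 a (mem_nb.1 (mem_coe.1 ha)).1
        exact mem_coe.2 (mem_range.2 (Nat.lt_succ_of_le (Nat.div_le_div_right this.le)))
      · intro a ha b hb e
        obtain ⟨a1, a2⟩ := mem_nb.1 (mem_coe.1 ha)
        obtain ⟨b1, b2⟩ := mem_nb.1 (mem_coe.1 hb)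
        have h2 : f a = f b := a2.symm.trans b2
        have h3 : idx a % Q = idx b % Q := (ZMod.natCast_eq_natCast_iff' _ _ _).1 h2
        refine hidx2 a a1 b b1 ?_
        have e' : idx a / Q = idx b / Q := e
        rw [← Nat.div_add_mod (idx a) Q, ← Nat.div_add_mod (idx b) Q, e', h3]
    rw [card_range] at h1
    have h2 : ((nb T U v).card : ℝ) ≤ (U.card / Q : ℕ) + 1 := by exact_mod_cast h1
    have h3 : ((U.card / Q : ℕ) : ℝ) ≤ U.card / Q := Nat.cast_div_le
    rw [hQ] at h3
    linarith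
  have hkD : k * ((U.card : ℝ) / q + 1) ≤ U.card := by
    have h1 : (k : ℝ) ≤ U.card / q := by rw [le_div_iff₀ hq0]; exact hU
    have h2 : (U.card : ℝ) = q * (U.card / q) := by field_simp
    nlinarith
  have hl := ind_lower (T := T) (fun _ => rfl) (fun _ _ h => h.symm) U (U.card / q + 1)
    (by positivity) hD k U (Subset.refl _) U.card le_rfl hkD
  have hp : (U.card - k * q) ^ k * Real.exp (-1) ≤
      ∏ i ∈ range k, ((U.card : ℝ) - i * (U.card / q + 1)) := by
    have h0 : 0 ≤ (U.card : ℝ) - k * q := by linarith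
    calc _ ≤ (U.card - k * q) ^ k * ∏ i ∈ range k, (1 - (i : ℝ) / q) :=
          mul_le_mul_of_nonneg_left (prod_ge k hk hq) (pow_nonneg h0 k)
      _ = ∏ i ∈ range k, ((U.card - k * q) * (1 - (i : ℝ) / q)) := by
          rw [prod_mul_distrib, prod_const, card_range]
      _ ≤ _ := by
          refine prod_le_prod (fun i hi => ?_) (fun i hi => ?_)
          · have hi' : (i : ℝ) ≤ k := by exact_mod_cast (mem_range.1 hi).le
            have : (i : ℝ) / q ≤ 1 := (div_le_one hq0).2 (by linarith)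
            exact mul_nonneg h0 (by linarith)
          · have hi' : (i : ℝ) ≤ k := by exact_mod_cast (mem_range.1 hi).le
            have e : ((U.card : ℝ) - k * q) * (1 - (i : ℝ) / q) =
                U.card - i * (U.card / q) - k * (q - i) := by field_simp
            rw [e]; nlinarith
  obtain ⟨c, -, hc⟩ := exists_max_image (univ : Finset (ZMod Q))
    (fun c => ((Ind T U k).filter (fun S => ∑ a ∈ S, f a = c)).card) univ_nonempty
  have h1 : (Ind T U k).card ≤ Q * ((Ind T U k).filter (fun S => ∑ a ∈ S, f a = c)).card := by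
    rw [card_eq_sum_card_fiberwise (f := fun S => ∑ a ∈ S, f a) (t := univ)
      (fun _ _ => mem_coe.2 (mem_univ _))]
    refine le_trans (sum_le_card_nsmul _ _ _ hc) ?_
    rw [card_univ, ZMod.card, smul_eq_mul]
  refine ⟨(Ind T U k).filter (fun S => ∑ a ∈ S, f a = c), ?_, ?_, ?_⟩
  · exact (filter_subset _ _).trans (filter_subset _ _)
  · intro Z a b hab haZ hbZ h2 h3 C hC ha hb
    have e1 := (mem_filter.1 h2).2
    have e2 := (mem_filter.1 h3).2
    rw [sum_insert haZ] at e1
    rw [sum_insert hbZ] at e2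
    have e3 : f a = f b := add_right_cancel (e1.trans e2.symm)
    exact hab ((mem_Ind.1 (mem_filter.1 hC).1).2.2 a ha b hb e3)
  · have h2 : ((Ind T U k).card : ℝ) ≤
        q * ((Ind T U k).filter (fun S => ∑ a ∈ S, f a = c)).card := by
      rw [← hQ]; exact_mod_cast h1
    have h3 : (0 : ℝ) < k.factorial := by exact_mod_cast Nat.factorial_pos k
    rw [div_mul_eq_mul_div, div_le_iff₀ hq0]
    nlinarith

end Pool.Agent.MP_6574cc_co.H69
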