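import Mathlib
import Pool.Agent.MP_6574cc_co.H69.Hyper

/-!
Structure of a family without the generalized triangle: light pairs, twins, bad pairs and the cost
of destroying a bad pair.
-/

namespace Pool.Agent.MP_6574cc_co.H69

open Finset
open scoped Classical

variable {α : Type*} [DecidableEq α]

/-- edges through a set -/
def thru (H : Finset (Finset α)) (S : Finset α) : Finset (Finset α) := H.filter (fun C => S ⊆ C)

/-- light pairs -/
def Lt (H : Finset (Finset α)) (L : ℕ) (a b : α) : Prop := a = b ∨ (thru H {a, b}).card ≤ L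

/-- twins: pairs with a large common link -/
def Tw (H : Finset (Finset α)) (L : ℕ) (a b : α) : Prop :=
  a = b ∨ L < (link H a ∩ link H b).card

/-- bad pairs: covered, with a common link -/
def Bad (H : Finset (Finset α)) (a b : α) : Prop :=
  a ≠ b ∧ (∃ C ∈ H, a ∈ C ∧ b ∈ C) ∧ (link H a ∩ link H b).Nonempty

/-- edges without light pairs -/
noncomputable def core (H : Finset (Finset α)) (L : ℕ) : Finset (Finset α) :=
  H.filter (Indep (Lt H L))

lemma mem_thru {H : Finset (Finset α)} {S C : Finset α} : C ∈ thru H S ↔ C ∈ H ∧ S ⊆ C := by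
  simp [thru]

lemma Lt.symm {H : Finset (Finset α)} {L : ℕ} (a b : α) (h : Lt H L a b) : Lt H L b a := by
  rcases h with h | h
  · exact Or.inl h.symm
  · exact Or.inr (by rwa [pair_comm])

lemma Tw.symm {H : Finset (Finset α)} {L : ℕ} (a b : α) (h : Tw H L a b) : Tw H L b a := by
  rcases h with h | h
  · exact Or.inl h.symm
  · exact Or.inr (by rwa [inter_comm])

lemma Bad.symm {H : Finset (Finset α)} (a b : α) (h : Bad H a b) : Bad H b a := by
  obtain ⟨h1, ⟨C, h2, h3, h4⟩, h5⟩ := h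
  exact ⟨h1.symm, ⟨C, h2, h4, h3⟩, by rwa [inter_comm]⟩

section
variable {H : Finset (Finset α)} {U : Finset α} {r : ℕ}

lemma thru_meet (hA : AF H) {a b : α} (hab : a ≠ b) {Z : Finset α}
    (hZ : Z ∈ link H a ∩ link H b) {S : Finset α} (ha : a ∈ S) (hb : b ∈ S) :
    thru H S ⊆ Z.biUnion (fun z => thru H (insert z S)) := by
  intro C hC
  obtain ⟨h1, h2⟩ := mem_thru.1 hC
  obtain ⟨z1, z2⟩ := mem_inter.1 hZ
  have h3 : ¬ Disjoint C Z := fun h => hA Z a b hab (mem_link.1 z1).1 (mem_link.1 z2).1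
    (mem_link.1 z1).2 (mem_link.1 z2).2 C h1 (h2 ha) (h2 hb) h
  obtain ⟨z, hz1, hz2⟩ := not_disjoint_iff.1 h3
  exact mem_biUnion.2 ⟨z, hz2, mem_thru.2 ⟨h1, insert_subset hz1 h2⟩⟩

lemma thru_le (hH : H ⊆ powersetCard (r + 1) U) (hA : AF H) {a b : α} (hab : a ≠ b)
    {Z : Finset α} (hZ : Z ∈ link H a ∩ link H b) {S : Finset α} (ha : a ∈ S) (hb : b ∈ S)
    (hSZ : Disjoint S Z) : (thru H S).card ≤ (r + 1) * U.card ^ (r - S.card) := by
  refine (card_le_card (thru_meet hA hab hZ ha hb)).trans ?_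
  refine (card_biUnion_le_card_mul _ _ (U.card ^ (r - S.card)) fun z hz => ?_).trans ?_
  · have := cnt_le hH (insert z S)
    rw [card_insert_of_notMem (disjoint_right.1 hSZ hz), Nat.add_sub_add_right] at this
    exact this
  · rw [(link_card_mem hH (mem_inter.1 hZ).1).2]
    exact Nat.mul_le_mul_right _ (Nat.le_succ r)

lemma lt_of_com (hH : H ⊆ powersetCard (r + 1) U) (hA : AF H) {a b : α}
    {Z : Finset α} (hZ : Z ∈ link H a ∩ link H b) : Lt H ((r + 1) * U.card ^ (r - 2)) a b := by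
  by_cases hab : a = b
  · exact Or.inl hab
  · have := thru_le hH hA hab hZ (S := {a, b}) (by simp) (by simp) (by
      obtain ⟨z1, z2⟩ := mem_inter.1 hZ
      simp [(mem_link.1 z1).1, (mem_link.1 z2).1])
    rw [card_pair hab] at this
    exact Or.inr this

lemma lt_of_tw (hH : H ⊆ powersetCard (r + 1) U) (hA : AF H) {L : ℕ} (a b : α)
    (h : Tw H L a b) : Lt H ((r + 1) * U.card ^ (r - 2)) a b := by
  rcases h with h | h
  · exact Or.inl h
  · obtain ⟨Z, hZ⟩ := card_pos.1 (lt_of_le_of_lt (Nat.zero_le _) h)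
    exact lt_of_com hH hA hZ

lemma com_le (hH : H ⊆ powersetCard (r + 1) U) (hA : AF H) {a b : α} (hab : a ≠ b)
    {C : Finset α} (hC : C ∈ H) (ha : a ∈ C) (hb : b ∈ C) :
    (link H a ∩ link H b).card ≤ (r + 1) * U.card ^ (r - 1) := by
  have h1 : link H a ∩ link H b ⊆ C.biUnion (fun z => thru (link H a) {z}) := by
    intro Z hZ
    obtain ⟨z1, z2⟩ := mem_inter.1 hZ
    have h3 : ¬ Disjoint C Z := fun h => hA Z a b hab (mem_link.1 z1).1 (mem_link.1 z2).1
      (mem_link.1 z1).2 (mem_link.1 z2).2 C hC ha hb h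
    obtain ⟨z, hz1, hz2⟩ := not_disjoint_iff.1 h3
    exact mem_biUnion.2 ⟨z, hz1, mem_thru.2 ⟨z1, singleton_subset_iff.2 hz2⟩⟩
  refine (card_le_card h1).trans ?_
  refine (card_biUnion_le_card_mul _ _ (U.card ^ (r - 1)) fun z _ => ?_).trans ?_
  · have h2 : link H a ⊆ powersetCard r U := fun Z hZ => mem_powersetCard.2 (link_card_mem hH hZ)
    exact cnt_le h2 {z}
  · rw [(mem_powersetCard.1 (hH hC)).2]

lemma bad_lt (hH : H ⊆ powersetCard (r + 1) U) (hA : AF H) {a b : α} (h : Bad H a b) :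
    Lt H ((r + 1) * U.card ^ (r - 2)) a b ∧ ¬ Tw H ((r + 1) * U.card ^ (r - 1)) a b := by
  obtain ⟨h1, ⟨C, h2, h3, h4⟩, Z, hZ⟩ := h
  refine ⟨lt_of_com hH hA hZ, ?_⟩
  rintro (h | h)
  · exact h1 h
  · exact absurd (com_le hH hA h1 h2 h3 h4) (not_le.2 h)

lemma core_subset (L : ℕ) : core H L ⊆ H := filter_subset _ _

lemma sf_core (hH : H ⊆ powersetCard (r + 1) U) (hA : AF H) :
    SF (core H ((r + 1) * U.card ^ (r - 2))) := by
  intro Z a b hab h1 h2 h3 h4 C hC ha hb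
  refine hab ((mem_filter.1 hC).2 a ha b hb (lt_of_com hH hA (Z := Z) ?_))
  exact mem_inter.2 ⟨mem_link.2 ⟨h1, core_subset _ h3⟩, mem_link.2 ⟨h2, core_subset _ h4⟩⟩

lemma card_noncore {k : ℕ} (hH : H ⊆ powersetCard k U) (L : ℕ) :
    (H.filter (fun C => ¬ Indep (Lt H L) C)).card ≤ U.card ^ 2 * L := by
  have h1 : H.filter (fun C => ¬ Indep (Lt H L) C) ⊆
      ((U ×ˢ U).filter (fun p => (thru H {p.1, p.2}).card ≤ L)).biUnion
        (fun p => thru H {p.1, p.2}) := by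
    intro C hC
    obtain ⟨h1, h2⟩ := mem_filter.1 hC
    simp only [Indep, not_forall] at h2
    obtain ⟨a, ha, b, hb, h3, h4⟩ := h2
    have h5 := (mem_powersetCard.1 (hH h1)).1
    refine mem_biUnion.2 ⟨(a, b), mem_filter.2 ⟨mem_product.2 ⟨h5 ha, h5 hb⟩, ?_⟩,
      mem_thru.2 ⟨h1, ?_⟩⟩
    · exact h3.resolve_left h4
    · exact insert_subset ha (singleton_subset_iff.2 hb)
  refine (card_le_card h1).trans ?_
  refine (card_biUnion_le_card_mul _ _ L fun p hp => (mem_filter.1 hp).2).trans ?_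
  refine Nat.mul_le_mul_right _ ((card_filter_le _ _).trans ?_)
  rw [card_product, sq]

lemma SF.link {F : Finset (Finset α)} (h : SF F) (v : α) : SF (link F v) := by
  intro Z a b hab h1 h2 h3 h4 C hC ha hb
  obtain ⟨a1, a2⟩ := mem_link.1 h3
  obtain ⟨b1, b2⟩ := mem_link.1 h4
  refine h (insert v Z) a b hab ?_ ?_ (by rwa [insert_comm]) (by rwa [insert_comm]) (insert v C)
    (mem_link.1 hC).2 (mem_insert_of_mem ha) (mem_insert_of_mem hb)
  · intro e
    rcases mem_insert.1 e with e | e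
    · exact a1 (e ▸ mem_insert_self _ _)
    · exact h1 e
  · intro e
    rcases mem_insert.1 e with e | e
    · exact b1 (e ▸ mem_insert_self _ _)
    · exact h2 e

lemma link_core_subset (hH : H ⊆ powersetCard (r + 1) U) (L : ℕ) (v : α) :
    link (core H L) v ⊆ powersetCard r (U \ nb (Lt H L) U v) := by
  intro Z hZ
  obtain ⟨h1, h2⟩ := link_card_mem ((core_subset L).trans hH) hZ
  obtain ⟨h3, h4⟩ := mem_link.1 hZ
  refine mem_powersetCard.2 ⟨fun a ha => mem_sdiff.2 ⟨h1 ha, fun h => h3 ?_⟩, h2⟩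
  have := (mem_filter.1 h4).2 v (mem_insert_self _ _) a (mem_insert_of_mem ha) (mem_nb.1 h).2
  exact this ▸ ha

lemma bonf {β : Type*} [DecidableEq β] (L : α → Finset β) (B : ℕ) (R : Finset α) :
    (∀ a ∈ R, ∀ b ∈ R, a ≠ b → (L a ∩ L b).card ≤ B) →
      ∑ t ∈ R, (L t).card ≤ (R.biUnion L).card + R.card ^ 2 * B := by
  induction R using Finset.induction_on with
  | empty => simp
  | insert t R ht ih =>
    intro h
    have h1 := ih fun a ha b hb => h a (mem_insert_of_mem ha) b (mem_insert_of_mem hb)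
    rw [sum_insert ht, biUnion_insert, card_insert_of_notMem ht]
    have h2 := card_union_add_card_inter (L t) (R.biUnion L)
    have h3 : (L t ∩ R.biUnion L).card ≤ R.card * B := by
      rw [inter_biUnion]
      exact card_biUnion_le_card_mul _ _ _ fun a ha =>
        h t (mem_insert_self _ _) a (mem_insert_of_mem ha) (fun e => ht (e ▸ ha))
    nlinarith

lemma clique_le (hH : H ⊆ powersetCard (r + 1) U) (L L' : ℕ) {R : Finset α}
    (hR : Indep (Tw H L') R) :
    ∑ t ∈ R, (link (core H L) t).card ≤ (Ind (Lt H L) U r).card + R.card ^ 2 * L' := by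
  refine (bonf (link (core H L)) L' R fun a ha b hb hab => ?_).trans ?_
  · have h1 : ¬ Tw H L' a b := fun h => hab (hR a ha b hb h)
    simp only [Tw, not_or, not_lt] at h1
    refine le_trans (card_le_card fun Z hZ => ?_) h1.2
    obtain ⟨z1, z2⟩ := mem_inter.1 hZ
    exact mem_inter.2 ⟨mem_link.2 ⟨(mem_link.1 z1).1, core_subset _ (mem_link.1 z1).2⟩,
      mem_link.2 ⟨(mem_link.1 z2).1, core_subset _ (mem_link.1 z2).2⟩⟩
  · refine Nat.add_le_add_right (card_le_card fun Z hZ => ?_) _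
    obtain ⟨t, -, ht⟩ := mem_biUnion.1 hZ
    obtain ⟨h1, h2⟩ := link_card_mem ((core_subset L).trans hH) ht
    exact mem_Ind.2 ⟨h1, h2, fun a ha b hb => (mem_filter.1 (mem_link.1 ht).2).2 a
      (mem_insert_of_mem ha) b (mem_insert_of_mem hb)⟩

lemma ind_sdiff (T : α → α → Prop) (U X : Finset α) (s : ℕ) :
    (Ind T U s).card ≤ (Ind T (U \ X) s).card + X.card * U.card ^ (s - 1) := by
  have h1 : Ind T U s ⊆ Ind T (U \ X) s ∪ X.biUnion (fun x => thru (powersetCard s U) {x}) := by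
    intro S hS
    obtain ⟨h1, h2, h3⟩ := mem_Ind.1 hS
    by_cases h : Disjoint S X
    · exact mem_union_left _ (mem_Ind.2 ⟨subset_sdiff.2 ⟨h1, h⟩, h2, h3⟩)
    · obtain ⟨x, hx1, hx2⟩ := not_disjoint_iff.1 h
      exact mem_union_right _ (mem_biUnion.2 ⟨x, hx2,
        mem_thru.2 ⟨mem_powersetCard.2 ⟨h1, h2⟩, singleton_subset_iff.2 hx1⟩⟩)
  refine (card_le_card h1).trans ((card_union_le _ _).trans (Nat.add_le_add_left ?_ _))
  exact card_biUnion_le_card_mul _ _ _ fun x _ => cnt_le (Subset.refl _) {x}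

lemma shadow_count {F : Finset (Finset α)} {j : ℕ} (hF : F ⊆ powersetCard (j + 1) U) {E : ℝ}
    (hE : ∀ Y, ((U.filter (fun t => Y ∈ link F t)).card : ℝ) ≤ E) :
    ((j : ℝ) + 1) * F.card ≤ U.card.choose j * E := by
  have h1 : (j + 1) * F.card = ∑ Y ∈ powersetCard j U, (U.filter (fun t => Y ∈ link F t)).card := by
    rw [← sum_deg hF, sum_congr rfl (fun Y _ => card_filter (fun t => Y ∈ link F t) U), sum_comm]
    refine sum_congr rfl fun t _ => ?_
    rw [← card_link, ← card_filter, filter_mem_eq_inter, inter_eq_right.2]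
    exact fun Z hZ => mem_powersetCard.2 (link_card_mem hF hZ)
  have h2 : ((j : ℝ) + 1) * F.card =
      ∑ Y ∈ powersetCard j U, ((U.filter (fun t => Y ∈ link F t)).card : ℝ) := by
    exact_mod_cast h1
  rw [h2]
  refine (sum_le_card_nsmul _ _ E fun Y _ => hE Y).trans ?_
  rw [card_powersetCard, nsmul_eq_mul]

lemma thru_three {j : ℕ} (hH : H ⊆ powersetCard (j + 4) U) {E : ℝ}
    (hE : ∀ Y, ((U.filter (fun t => Y ∈ link H t)).card : ℝ) ≤ E) {S : Finset α}
    (hS : S.card = 3) : ((j : ℝ) + 1) * (thru H S).card ≤ U.card.choose j * E := by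
  have hinj : Set.InjOn (fun C => C \ S) (thru H S : Set (Finset α)) := by
    intro C hC C' hC' h
    have h1 := (mem_thru.1 (mem_coe.1 hC)).2
    have h2 := (mem_thru.1 (mem_coe.1 hC')).2
    rw [← sdiff_union_of_subset h1, ← sdiff_union_of_subset h2]
    exact congrArg (· ∪ S) h
  rw [← card_image_of_injOn hinj]
  refine shadow_count ?_ fun Y => le_trans ?_ (hE (Y ∪ S))
  · intro Y hY
    obtain ⟨C, hC, rfl⟩ := mem_image.1 hY
    obtain ⟨h1, h2⟩ := mem_thru.1 hC
    obtain ⟨h3, h4⟩ := mem_powersetCard.1 (hH h1)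
    exact mem_powersetCard.2 ⟨sdiff_subset.trans h3, by
      rw [card_sdiff_of_subset h2, h4, hS]; rfl⟩
  · refine Nat.cast_le.2 (card_le_card fun t ht => ?_)
    obtain ⟨h1, h2⟩ := mem_filter.1 ht
    obtain ⟨h3, h4⟩ := mem_link.1 h2
    obtain ⟨C, hC, e⟩ := mem_image.1 h4
    obtain ⟨h5, h6⟩ := mem_thru.1 hC
    have h7 : t ∈ C \ S := by rw [e]; exact mem_insert_self _ _
    refine mem_filter.2 ⟨h1, mem_link.2 ⟨?_, ?_⟩⟩
    · intro h
      rcases mem_union.1 h with h | h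
      · exact h3 h
      · exact (mem_sdiff.1 h7).2 h
    · rw [← insert_union, ← e, sdiff_union_of_subset h6]; exact h5

lemma ext_le (hH : H ⊆ powersetCard (r + 1) U) (hA : AF H) (X : Finset α) {D : ℝ} (hD0 : 0 ≤ D)
    (hD : ∀ v ∈ U \ X, ((nb (Lt H ((r + 1) * U.card ^ (r - 2))) U v).card : ℝ) ≤ D)
    (Y : Finset α) : ((U.filter (fun t => Y ∈ link H t)).card : ℝ) ≤ D + X.card := by
  by_cases h : U.filter (fun t => Y ∈ link H t) ⊆ X
  · have : ((U.filter (fun t => Y ∈ link H t)).card : ℝ) ≤ X.card := by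
      exact_mod_cast card_le_card h
    linarith
  · obtain ⟨v, hv, hvX⟩ := not_subset.1 h
    obtain ⟨h1, h2⟩ := mem_filter.1 hv
    have h3 : U.filter (fun t => Y ∈ link H t) ⊆ nb (Lt H ((r + 1) * U.card ^ (r - 2))) U v :=
      fun t ht => mem_nb.2 ⟨(mem_filter.1 ht).1,
        lt_of_com hH hA (mem_inter.2 ⟨h2, (mem_filter.1 ht).2⟩)⟩
    have h4 : ((U.filter (fun t => Y ∈ link H t)).card : ℝ) ≤
        (nb (Lt H ((r + 1) * U.card ^ (r - 2))) U v).card := by exact_mod_cast card_le_card h3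
    linarith [hD v (mem_sdiff.2 ⟨h1, hvX⟩), Nat.cast_nonneg (α := ℝ) X.card]

lemma bad_cost (hH : H ⊆ powersetCard (r + 1) U) (hA : AF H) {T : ℝ} (hT0 : 0 ≤ T)
    (hT : ∀ S : Finset α, S.card = 3 → ((thru H S).card : ℝ) ≤ T) {a b : α} (h : Bad H a b) :
    ∃ Del : Finset (Finset α), (Del.card : ℝ) ≤ T + (r + 1) ^ 2 * (U.card : ℝ) ^ (r - 3) ∧
      ((∀ C ∈ H, a ∈ C → b ∈ C → C ∈ Del) ∨ (∀ Z ∈ link H a ∩ link H b, insert a Z ∈ Del)) := by
  obtain ⟨hab, -, Z0, hZ0⟩ := h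
  have hne : ∀ Z ∈ link H a ∩ link H b, a ∉ Z ∧ b ∉ Z := fun Z hZ =>
    ⟨(mem_link.1 (mem_inter.1 hZ).1).1, (mem_link.1 (mem_inter.1 hZ).2).1⟩
  have hc3 : ∀ z ∈ Z0, (insert z ({a, b} : Finset α)).card = 3 := by
    intro z hz
    rw [card_insert_of_notMem, card_pair hab]
    simp only [mem_insert, mem_singleton, not_or]
    exact ⟨fun e => (hne Z0 hZ0).1 (e ▸ hz), fun e => (hne Z0 hZ0).2 (e ▸ hz)⟩
  set W := Z0.filter (fun w => (r + 1) * U.card ^ (r - 3) < (thru H (insert w {a, b})).card)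
    with hW
  have hWZ : ∀ w ∈ W, ∀ Z ∈ link H a ∩ link H b, w ∈ Z := by
    intro w hw Z hZ
    by_contra hwZ
    obtain ⟨h1, h2⟩ := mem_filter.1 hw
    have := thru_le hH hA hab hZ (S := insert w {a, b}) (by simp) (by simp) (by
      simp [hwZ, (hne Z hZ).1, (hne Z hZ).2])
    rw [hc3 w h1] at this
    omega
  have hpos : (0 : ℝ) ≤ (r + 1) ^ 2 * (U.card : ℝ) ^ (r - 3) := by positivity
  by_cases hc : W.card ≤ 1
  · refine ⟨thru H {a, b}, ?_, Or.inl fun C hC ha hb =>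
      mem_thru.2 ⟨hC, insert_subset ha (singleton_subset_iff.2 hb)⟩⟩
    have h1 := (card_le_card (thru_meet hA hab hZ0 (S := {a, b}) (by simp) (by simp))).trans
      card_biUnion_le
    have h2 : ((thru H {a, b}).card : ℝ) ≤ ∑ z ∈ Z0, ((thru H (insert z {a, b})).card : ℝ) := by
      exact_mod_cast h1
    refine h2.trans ?_
    rw [← sum_filter_add_sum_filter_not Z0
      (fun w => (r + 1) * U.card ^ (r - 3) < (thru H (insert w {a, b})).card)]
    refine add_le_add ?_ ?_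
    · refine (sum_le_card_nsmul _ _ T fun z hz => hT _ (hc3 z (mem_filter.1 hz).1)).trans ?_
      have : (W.card : ℝ) ≤ 1 := by exact_mod_cast hc
      rw [nsmul_eq_mul, ← hW]; nlinarith
    · refine (sum_le_card_nsmul _ _ ((r + 1) * (U.card : ℝ) ^ (r - 3)) fun z hz => ?_).trans ?_
      · exact_mod_cast not_lt.1 (mem_filter.1 hz).2
      · have h3 := card_filter_le Z0
          (fun w => ¬ (r + 1) * U.card ^ (r - 3) < (thru H (insert w {a, b})).card)
        rw [(link_card_mem hH (mem_inter.1 hZ0).1).2] at h3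
        have h4 : ((Z0.filter (fun w => ¬ (r + 1) * U.card ^ (r - 3) <
            (thru H (insert w {a, b})).card)).card : ℝ) ≤ r + 1 := by
          exact_mod_cast h3.trans (Nat.le_succ r)
        rw [nsmul_eq_mul, sq, mul_assoc]
        exact mul_le_mul_of_nonneg_right h4 (by positivity)
  · obtain ⟨w1, h1, w2, h2, h12⟩ := one_lt_card.1 (not_le.1 hc)
    refine ⟨thru H (insert a {w1, w2}), ?_, Or.inr fun Z hZ => mem_thru.2
      ⟨(mem_link.1 (mem_inter.1 hZ).1).2, insert_subset_insert _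
        (insert_subset (hWZ w1 h1 Z hZ) (singleton_subset_iff.2 (hWZ w2 h2 Z hZ)))⟩⟩
    refine (hT _ ?_).trans (by linarith)
    rw [card_insert_of_notMem, card_pair h12]
    simp only [mem_insert, mem_singleton, not_or]
    exact ⟨fun e => (hne Z0 hZ0).1 (e ▸ (mem_filter.1 h1).1),
      fun e => (hne Z0 hZ0).1 (e ▸ (mem_filter.1 h2).1)⟩

lemma clean (hH : H ⊆ powersetCard (r + 1) U) (hA : AF H) {T : ℝ} (hT0 : 0 ≤ T)
    (hT : ∀ S : Finset α, S.card = 3 → ((thru H S).card : ℝ) ≤ T) :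
    ∃ G ⊆ H, SF G ∧ (H.card : ℝ) ≤
      G.card + pairs (Bad H) U * (T + (r + 1) ^ 2 * (U.card : ℝ) ^ (r - 3)) := by
  choose! Del hDel using fun a b => bad_cost hH hA hT0 hT (a := a) (b := b)
  refine ⟨H \ U.biUnion (fun a => (nb (Bad H) U a).biUnion (Del a)), sdiff_subset, ?_, ?_⟩
  · intro Z a b hab h1 h2 h3 h4 C hC ha hb
    have hZ : Z ∈ link H a ∩ link H b := mem_inter.2
      ⟨mem_link.2 ⟨h1, (mem_sdiff.1 h3).1⟩, mem_link.2 ⟨h2, (mem_sdiff.1 h4).1⟩⟩
    have hb' : Bad H a b := ⟨hab, ⟨C, (mem_sdiff.1 hC).1, ha, hb⟩, Z, hZ⟩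
    have hCU := (mem_powersetCard.1 (hH (mem_sdiff.1 hC).1)).1
    rcases (hDel a b hb').2 with h | h
    · exact (mem_sdiff.1 hC).2 (mem_biUnion.2 ⟨a, hCU ha, mem_biUnion.2
        ⟨b, mem_nb.2 ⟨hCU hb, hb'⟩, h C (mem_sdiff.1 hC).1 ha hb⟩⟩)
    · exact (mem_sdiff.1 h3).2 (mem_biUnion.2 ⟨a, hCU ha, mem_biUnion.2
        ⟨b, mem_nb.2 ⟨hCU hb, hb'⟩, h Z hZ⟩⟩)
  · have h1 := card_le_card_sdiff_add_card (s := H)
      (t := U.biUnion (fun a => (nb (Bad H) U a).biUnion (Del a)))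
    have h2 : (U.biUnion (fun a => (nb (Bad H) U a).biUnion (Del a))).card ≤
        ∑ a ∈ U, ∑ b ∈ nb (Bad H) U a, (Del a b).card :=
      card_biUnion_le.trans (sum_le_sum fun a _ => card_biUnion_le)
    have h3 : (H.card : ℝ) ≤ (H \ U.biUnion (fun a => (nb (Bad H) U a).biUnion (Del a))).card +
        ∑ a ∈ U, ∑ b ∈ nb (Bad H) U a, ((Del a b).card : ℝ) := by
      exact_mod_cast h1.trans (Nat.add_le_add_left h2 _)
    refine h3.trans (add_le_add le_rfl ?_)
    unfold pairs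
    rw [sum_mul]
    refine sum_le_sum fun a _ => ?_
    rw [← nsmul_eq_mul]
    exact sum_le_card_nsmul _ _ _ fun b hb => (hDel a b (mem_nb.1 hb).2).1

end

end Pool.Agent.MP_6574cc_co.H69
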