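import Mathlib
import Pool.Agent.MP_6574cc_co.H69.Struct

/-!
The case of large minimum degree.
-/

namespace Pool.Agent.MP_6574cc_co.H69

open Finset
open scoped Classical

variable {α : Type*} [DecidableEq α]

/-- the density of the modular construction -/
noncomputable def ell (κ : ℝ) : ℝ := Real.exp (-1) / (κ * (κ + 1) / 2)

lemma ell_pos {κ : ℝ} (h : 0 < κ) : 0 < ell κ := by unfold ell; positivity

lemma ell_ge {κ : ℝ} (h : 200 ≤ κ) : 2 / (3 * κ ^ 2) ≤ ell κ := by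
  have h1 := Real.exp_neg_one_gt_d9
  unfold ell
  rw [div_le_div_iff₀ (by positivity) (by positivity)]
  nlinarith

lemma exp_cmp {y t : ℝ} (ht : 0 ≤ t) (ht2 : t ≤ 1 / 2) (h : 1 - t ≤ Real.exp (-y)) :
    y ≤ 2 * t := by
  have h1 := Real.add_one_le_exp (2 * t)
  have h2 : Real.exp (-(2 * t)) * Real.exp (2 * t) = 1 := by rw [← Real.exp_add]; simp
  have h3 := Real.exp_pos (-(2 * t))
  have h4 : Real.exp (-(2 * t)) ≤ 1 - t := by
    refine le_of_mul_le_mul_right ?_ (show 0 < 2 * t + 1 by linarith)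
    nlinarith
  have := Real.exp_le_exp.1 (h4.trans h)
  linarith

lemma fact_choose_le (n s : ℕ) : (s.factorial : ℝ) * n.choose s ≤ (n : ℝ) ^ s := by
  have h : (n.choose s : ℝ) ≤ (n : ℝ) ^ s / s.factorial := Nat.choose_le_pow_div s n
  have h1 : (0 : ℝ) < s.factorial := by exact_mod_cast Nat.factorial_pos s
  rwa [le_div_iff₀ h1, mul_comm] at h

lemma sub_le_exp {x : ℝ} (hx : 0 < x) (y : ℝ) : x - y ≤ x * Real.exp (-(y / x)) := by
  have := Real.add_one_le_exp (-(y / x))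
  calc _ = x * (-(y / x) + 1) := by field_simp; ring
    _ ≤ _ := mul_le_mul_of_nonneg_left this hx.le

lemma num_a {κ x y : ℝ} (hk : 200 ≤ κ) (hx : κ ^ 2 ≤ x) (h : (κ - 1) * (y / x) ≤ 2 * (8 / κ)) :
    y + 1 ≤ 20 * x / κ ^ 2 := by
  have hk0 : 0 < κ := by linarith
  have hx0 : 0 < x := lt_of_lt_of_le (by positivity) hx
  have h7 : (κ - 1) * y * κ ≤ 16 * x := by
    have h8 := mul_le_mul_of_nonneg_right h (show 0 ≤ κ * x by positivity)
    have e1 : (κ - 1) * (y / x) * (κ * x) = (κ - 1) * y * κ := by field_simp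
    have e2 : 2 * (8 / κ) * (κ * x) = 16 * x := by field_simp; ring
    rwa [e1, e2] at h8
  rw [le_div_iff₀ (by positivity)]
  by_cases hd1 : y ≤ 0
  · nlinarith
  · have h9 : 0 ≤ y * κ * (κ - 200) :=
      mul_nonneg (mul_nonneg (by linarith) (by linarith)) (by linarith)
    nlinarith

lemma num_b {κ F x X M Q : ℝ} (hk : 200 ≤ κ) (hF1 : 1 ≤ F) (hx : 100 * κ ^ 10 * F ^ 2 ≤ x)
    (hX : X ≤ 2 * κ ^ 5 * F) (hM1 : 1 ≤ M) (hM : M ≤ 4 * κ ^ 2) (hQ : 0 < Q) :
    F * (X * Q) + F * (M ^ 2 * (κ * Q)) ≤ M * (ell κ / κ * (x * Q)) := by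
  have hk0 : 0 < κ := by linarith
  have hl := ell_ge hk
  have hl0 := ell_pos hk0
  have hκ8 : κ ^ 8 ≤ κ ^ 10 := pow_le_pow_right₀ (by linarith) (by norm_num)
  have hF2 : F ≤ F ^ 2 := by nlinarith
  have hx0 : 0 < x := lt_of_lt_of_le (by positivity) hx
  have e1 : F * (X * Q) ≤ F * (2 * κ ^ 5 * F * Q) :=
    mul_le_mul_of_nonneg_left (mul_le_mul_of_nonneg_right hX hQ.le) (by linarith)
  have e2 : M ^ 2 ≤ (4 * κ ^ 2) ^ 2 := pow_le_pow_left₀ (by linarith) hM 2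
  have e3 : F * (M ^ 2 * (κ * Q)) ≤ F ^ 2 * ((4 * κ ^ 2) ^ 2 * (κ * Q)) :=
    mul_le_mul hF2 (mul_le_mul_of_nonneg_right e2 (by positivity)) (by positivity)
      (by positivity)
  have e4 : 18 * κ ^ 5 * F ^ 2 ≤ ell κ / κ * x := by
    have e5 : 27 * (κ ^ 8 * F ^ 2) ≤ x := by
      have : κ ^ 8 * F ^ 2 ≤ κ ^ 10 * F ^ 2 := mul_le_mul_of_nonneg_right hκ8 (by positivity)
      have : 0 ≤ κ ^ 10 * F ^ 2 := by positivity
      linarith
    calc 18 * κ ^ 5 * F ^ 2 = 2 / (3 * κ ^ 2) / κ * (27 * (κ ^ 8 * F ^ 2)) := by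
          field_simp; ring
      _ ≤ _ := mul_le_mul (div_le_div_of_nonneg_right hl hk0.le) e5 (by positivity)
          (by positivity)
  have e6 : 18 * κ ^ 5 * F ^ 2 * Q ≤ ell κ / κ * (x * Q) := by
    rw [← mul_assoc]; exact mul_le_mul_of_nonneg_right e4 hQ.le
  have e7 : ell κ / κ * (x * Q) ≤ M * (ell κ / κ * (x * Q)) :=
    le_mul_of_one_le_left (by positivity) hM1
  have e8 : F * (2 * κ ^ 5 * F * Q) + F ^ 2 * ((4 * κ ^ 2) ^ 2 * (κ * Q)) =
    18 * κ ^ 5 * F ^ 2 * Q := by ring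
  linarith

lemma num_c {κ M P : ℝ} (hk : 200 ≤ κ) (hM1 : 1 ≤ M) (hP : 0 < P)
    (h : M * (ell κ * (1 - 2 / κ) * P) ≤
      P * Real.exp (-((κ - 1) * (κ - 1 - 1) / 2 * (1 / M + 30 / κ ^ 3))) + M * (ell κ / κ * P)) :
    False := by
  have hk0 : 0 < κ := by linarith
  obtain ⟨a, ha⟩ : ∃ a : ℝ, a = (κ - 1) * (κ - 1 - 1) / 2 := ⟨_, rfl⟩
  rw [← ha] at h
  have ha0 : 0 < a := by
    have : 0 < κ - 1 - 1 := by linarith
    have : 0 < κ - 1 := by linarith
    rw [ha]; positivity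
  have h5 : Real.exp (-(a * (1 / M + 30 / κ ^ 3))) ≤
      M * (Real.exp (-1) / a) * Real.exp (-(a * (30 / κ ^ 3))) := by
    have : -(a * (1 / M + 30 / κ ^ 3)) = -(a / M) + -(a * (30 / κ ^ 3)) := by ring
    rw [this, Real.exp_add]
    exact mul_le_mul_of_nonneg_right (exp_div_le ha0 (by linarith)) (Real.exp_pos _).le
  have h8 : ell κ * (1 - 3 / κ) ≤ Real.exp (-1) / a * Real.exp (-(a * (30 / κ ^ 3))) := by
    refine le_of_mul_le_mul_right ?_ (show 0 < M * P by positivity)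
    have e2 := mul_le_mul_of_nonneg_left h5 hP.le
    have e3 : ell κ * (1 - 3 / κ) * (M * P) =
        M * (ell κ * (1 - 2 / κ) * P) - M * (ell κ / κ * P) := by ring
    have e4 : Real.exp (-1) / a * Real.exp (-(a * (30 / κ ^ 3))) * (M * P) =
      P * (M * (Real.exp (-1) / a) * Real.exp (-(a * (30 / κ ^ 3)))) := by ring
    linarith
  have he := Real.exp_pos (-1)
  have h9 : 1 - 7 / κ ≤ Real.exp (-(a * (30 / κ ^ 3))) := by
    refine le_of_mul_le_mul_left (le_trans ?_ h8) (div_pos he ha0)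
    have e2 : ell κ * (1 - 3 / κ) - Real.exp (-1) / a * (1 - 7 / κ) =
        Real.exp (-1) * (2 * (18 * κ - 6)) / (κ ^ 2 * (κ + 1) * (κ - 1) * (κ - 2)) := by
      unfold ell
      rw [ha]
      have : κ - 2 ≠ 0 := by linarith
      have : κ - 1 ≠ 0 := by linarith
      have : κ - 1 - 1 ≠ 0 := by linarith
      field_simp; ring
    have e3 : 0 ≤ Real.exp (-1) * (2 * (18 * κ - 6)) /
        (κ ^ 2 * (κ + 1) * (κ - 1) * (κ - 2)) := by
      have : 0 < κ - 2 := by linarith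
      have : 0 < κ - 1 := by linarith
      have : 0 < 18 * κ - 6 := by linarith
      positivity
    linarith
  have h10 := exp_cmp (t := 7 / κ) (by positivity)
    (by rw [div_le_iff₀ (by linarith)]; linarith) h9
  have h11 := mul_le_mul_of_nonneg_right h10 (show 0 ≤ κ ^ 3 by positivity)
  have e1 : a * (30 / κ ^ 3) * κ ^ 3 = 15 * ((κ - 1) * (κ - 2)) := by rw [ha]; field_simp; ring
  have e2 : 2 * (7 / κ) * κ ^ 3 = 14 * κ ^ 2 := by field_simp; ring
  rw [e1, e2] at h11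
  nlinarith

section
variable {H : Finset (Finset α)} {U : Finset α} {j : ℕ}

lemma exc (hH : H ⊆ powersetCard (j + 4) U) (L : ℕ) {θ : ℝ} (_hθ : 0 ≤ θ) :
    ∃ X ⊆ U, (X.card : ℝ) * θ ≤ (j + 4) * ((U.card : ℝ) ^ 2 * L) ∧
      ∀ v ∈ U \ X, ((H.filter (fun C => v ∈ C)).card : ℝ) ≤ (link (core H L) v).card + θ := by
  set N := H.filter (fun C => ¬ Indep (Lt H L) C) with hN
  refine ⟨U.filter (fun v => θ < (N.filter (fun C => v ∈ C)).card), filter_subset _ _, ?_, ?_⟩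
  · have h1 := sum_deg ((filter_subset (fun C => ¬ Indep (Lt H L) C) H).trans hH)
    have h2 := card_noncore hH L
    rw [← hN] at h1 h2
    have h3 : ∑ v ∈ U, ((N.filter (fun C => v ∈ C)).card : ℝ) = (j + 4) * N.card := by
      exact_mod_cast h1
    have h4 : (N.card : ℝ) ≤ (U.card : ℝ) ^ 2 * L := by exact_mod_cast h2
    calc _ ≤ ∑ v ∈ U.filter (fun v => θ < (N.filter (fun C => v ∈ C)).card),
            ((N.filter (fun C => v ∈ C)).card : ℝ) := by
          rw [← nsmul_eq_mul]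
          exact card_nsmul_le_sum _ _ _ fun v hv => (mem_filter.1 hv).2.le
      _ ≤ ∑ v ∈ U, ((N.filter (fun C => v ∈ C)).card : ℝ) :=
          sum_le_sum_of_subset_of_nonneg (filter_subset _ _) fun _ _ _ => Nat.cast_nonneg _
      _ ≤ _ := by rw [h3]; exact mul_le_mul_of_nonneg_left h4 (by positivity)
  · intro v hv
    obtain ⟨h1, h2⟩ := mem_sdiff.1 hv
    have h3 : ((N.filter (fun C => v ∈ C)).card : ℝ) ≤ θ :=
      not_lt.1 fun h => h2 (mem_filter.2 ⟨h1, h⟩)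
    have h4 : H.filter (fun C => v ∈ C) ⊆
        (core H L).filter (fun C => v ∈ C) ∪ N.filter (fun C => v ∈ C) := by
      intro C hC
      obtain ⟨c1, c2⟩ := mem_filter.1 hC
      by_cases h : Indep (Lt H L) C
      · exact mem_union_left _ (mem_filter.2 ⟨mem_filter.2 ⟨c1, h⟩, c2⟩)
      · exact mem_union_right _ (mem_filter.2 ⟨mem_filter.2 ⟨c1, h⟩, c2⟩)
    have h5 := (card_le_card h4).trans (card_union_le _ _)
    rw [← card_link (core H L)] at h5
    have h6 : ((H.filter (fun C => v ∈ C)).card : ℝ) ≤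
        (link (core H L) v).card + (N.filter (fun C => v ∈ C)).card := by exact_mod_cast h5
    linarith

lemma light_deg (hH : H ⊆ powersetCard (j + 4) U) (hA : AF H) {κ : ℝ} (hκ : κ = j + 4)
    (hk : 200 ≤ κ) (hx : κ ^ 2 ≤ U.card) {v : α}
    (hv : ell κ * (1 - 2 / κ) * (U.card : ℝ) ^ (j + 3) ≤
      (j + 3).factorial * (link (core H ((j + 4) * U.card ^ (j + 1))) v).card) :
    ((nb (Lt H ((j + 4) * U.card ^ (j + 1))) U v).card : ℝ) ≤ 20 * U.card / κ ^ 2 := by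
  have hx0 : (0 : ℝ) < U.card := lt_of_lt_of_le (by positivity) hx
  have hx0' := hx0.ne'
  have hk0' : κ ≠ 0 := by linarith
  have h1 := sf_upper (s := j + 2) (by omega) _ _
    (link_core_subset (r := j + 3) hH ((j + 4) * U.card ^ (j + 1)) v)
    ((sf_core (r := j + 3) hH hA).link v)
  obtain ⟨d, hd⟩ : ∃ d : ℝ, ((nb (Lt H ((j + 4) * U.card ^ (j + 1))) U v).card : ℝ) = d := ⟨_, rfl⟩
  have hc : ((U \ nb (Lt H ((j + 4) * U.card ^ (j + 1))) U v).card : ℝ) = U.card - d := by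
    rw [card_sdiff_of_subset (nb_subset _ _ _), Nat.cast_sub (card_le_card (nb_subset _ _ _)), hd]
  rw [hd]
  clear hd
  have hc0 : 0 ≤ U.card - d := by rw [← hc]; exact Nat.cast_nonneg _
  rw [hc] at h1
  have h2 : (U.card : ℝ) - d + 1 ≤ U.card * Real.exp (-((d - 1) / U.card)) := by
    have := sub_le_exp hx0 (d - 1)
    linarith
  have h3 := pow_le_pow_left₀ (by linarith) h2 (j + 3)
  rw [mul_pow, ← Real.exp_nat_mul] at h3
  have hj : (j : ℝ) = κ - 4 := by linarith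
  push_cast at h1 h3
  rw [hj] at h1 h3
  have hP : (0 : ℝ) < (U.card : ℝ) ^ (j + 3) := pow_pos hx0 _
  have ha : 0 < (κ - 4 + 2) * (κ - 4 + 2 - 1) / 2 := by
    have : 0 < κ - 4 + 2 - 1 := by linarith
    have : 0 < κ - 4 + 2 := by linarith
    positivity
  have he := Real.exp_pos (-1)
  have h4 : ell κ * (1 - 2 / κ) ≤ Real.exp (-1) / ((κ - 4 + 2) * (κ - 4 + 2 - 1) / 2) *
      Real.exp ((κ - 4 + 3) * -((d - 1) / U.card)) := by
    refine le_of_mul_le_mul_right ?_ hP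
    refine hv.trans (h1.trans ?_)
    rw [mul_assoc, mul_comm (Real.exp _)]
    exact mul_le_mul_of_nonneg_left h3 (by positivity)
  have h5 : 1 - 8 / κ ≤ Real.exp (-((κ - 1) * ((d - 1) / U.card))) := by
    have e : (κ - 4 + 3) * -((d - 1) / U.card) = -((κ - 1) * ((d - 1) / U.card)) := by ring
    rw [e] at h4
    refine le_of_mul_le_mul_left (le_trans ?_ h4) (div_pos he ha)
    have e2 : ell κ * (1 - 2 / κ) - Real.exp (-1) / ((κ - 4 + 2) * (κ - 4 + 2 - 1) / 2) *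
        (1 - 8 / κ) = Real.exp (-1) * (2 * (24 * κ - 12)) /
          (κ ^ 2 * (κ + 1) * (κ - 2) * (κ - 3)) := by
      unfold ell
      have : κ - 2 ≠ 0 := by linarith
      have : κ - 3 ≠ 0 := by linarith
      have : κ - 4 + 2 ≠ 0 := by linarith
      have : κ - 4 + 2 - 1 ≠ 0 := by linarith
      field_simp; ring
    have e3 : 0 ≤ Real.exp (-1) * (2 * (24 * κ - 12)) /
        (κ ^ 2 * (κ + 1) * (κ - 2) * (κ - 3)) := by
      have : 0 < κ - 2 := by linarith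
      have : 0 < κ - 3 := by linarith
      have : 0 < 24 * κ - 12 := by linarith
      positivity
    linarith
  have h6 := exp_cmp (t := 8 / κ) (by positivity) (by rw [div_le_iff₀ (by linarith)]; linarith) h5
  have := num_a hk hx h6
  linarith

lemma few_mixed (hH : H ⊆ powersetCard (j + 4) U) (hA : AF H) {κ F : ℝ} (hκ : κ = j + 4)
    (hF : F = (j + 3).factorial) (hk : 200 ≤ κ) (hx : 100 * κ ^ 10 * F ^ 2 ≤ U.card)
    {X : Finset α} (hXU : X ⊆ U) (hX : (X.card : ℝ) ≤ 2 * κ ^ 5 * F)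
    (hv : ∀ v ∈ U \ X, ell κ * (1 - 2 / κ) * (U.card : ℝ) ^ (j + 3) ≤
      F * (link (core H ((j + 4) * U.card ^ (j + 1))) v).card)
    (hD : ∀ v ∈ U \ X,
      ((nb (Lt H ((j + 4) * U.card ^ (j + 1))) U v).card : ℝ) ≤ 20 * U.card / κ ^ 2) :
    pairs (fun a b => Lt H ((j + 4) * U.card ^ (j + 1)) a b ∧
      ¬ Tw H ((j + 4) * U.card ^ (j + 2)) a b) (U \ X) ≤ 860 * (U.card : ℝ) ^ 2 / κ ^ 3 := by
  by_contra hcon
  rw [not_le] at hcon
  set x : ℝ := (U.card : ℝ) with hxdef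
  have hF1 : 1 ≤ F := by rw [hF]; exact_mod_cast Nat.factorial_pos _
  have hk0 : 0 < κ := by linarith
  have hk1 : 1 ≤ κ := by linarith
  have hκ5 : κ ^ 5 ≤ κ ^ 10 := pow_le_pow_right₀ hk1 (by norm_num)
  have hκ8 : κ ^ 8 ≤ κ ^ 10 := pow_le_pow_right₀ hk1 (by norm_num)
  have hκ5' : 0 < κ ^ 5 := by positivity
  have hκ10 : 0 < κ ^ 10 := by positivity
  have hF2 : F ≤ F ^ 2 := by nlinarith
  have hx1 : 100 * (κ ^ 5 * F) ≤ x := by
    have : κ ^ 5 * F ≤ κ ^ 10 * F ^ 2 := mul_le_mul hκ5 hF2 (by linarith) hκ10.le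
    linarith
  have hx0 : 0 < x := lt_of_lt_of_le (by positivity) hx1
  have hV : ((U \ X).card : ℝ) = x - X.card := by
    rw [card_sdiff_of_subset hXU, Nat.cast_sub (card_le_card hXU)]
  have hVne : (U \ X).Nonempty := by
    rw [← card_pos]
    have : (0 : ℝ) < (U \ X).card := by rw [hV]; nlinarith
    exact_mod_cast this
  have hl := ell_ge hk
  have hl0 := ell_pos hk0
  have hQ : 0 < x ^ (j + 2) := by positivity
  have hP : x ^ (j + 3) = x * x ^ (j + 2) := by ring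
  obtain ⟨R, hRV, hRi, hRpos, hmax⟩ := exists_max_indep (Tw H ((j + 4) * U.card ^ (j + 2))) _ hVne
  have hcl : ∀ R' ⊆ R, R'.card * (ell κ * (1 - 2 / κ) * x ^ (j + 3)) ≤
      F * (Ind (Lt H ((j + 4) * U.card ^ (j + 1))) U (j + 3)).card +
        F * (R'.card ^ 2 * (κ * x ^ (j + 2))) := by
    intro R' hR'
    have h1 := clique_le (r := j + 3) hH ((j + 4) * U.card ^ (j + 1)) ((j + 4) * U.card ^ (j + 2))
      (R := R') (fun a ha b hb => hRi a (hR' ha) b (hR' hb))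
    have h2 : ∑ t ∈ R', ((link (core H ((j + 4) * U.card ^ (j + 1))) t).card : ℝ) ≤
        (Ind (Lt H ((j + 4) * U.card ^ (j + 1))) U (j + 3)).card +
          R'.card ^ 2 * (κ * x ^ (j + 2)) := by
      rw [hκ, hxdef]; exact_mod_cast h1
    rw [← mul_add]
    refine le_trans ?_ (mul_le_mul_of_nonneg_left h2 (by linarith))
    rw [mul_sum, ← nsmul_eq_mul]
    exact card_nsmul_le_sum _ _ _ fun t ht => hv t (hRV (hR' ht))
  have h78 : 7 / 8 ≤ 1 - 2 / κ := by
    have : 2 / κ ≤ 1 / 8 := by rw [div_le_iff₀ hk0]; linarith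
    linarith
  have hM : (R.card : ℝ) ≤ 4 * κ ^ 2 := by
    by_contra h
    rw [not_le] at h
    have h1 : 4 * (j + 4) ^ 2 ≤ R.card := by
      have : ((4 * (j + 4) ^ 2 : ℕ) : ℝ) ≤ R.card := by push_cast; rw [← hκ]; exact h.le
      exact_mod_cast this
    obtain ⟨R', hR', hc⟩ := exists_subset_card_eq h1
    have h2 := hcl R' hR'
    have hc' : (R'.card : ℝ) = 4 * κ ^ 2 := by rw [hc, hκ]; push_cast; ring
    rw [hc'] at h2
    have h3 : F * (Ind (Lt H ((j + 4) * U.card ^ (j + 1))) U (j + 3)).card ≤ x ^ (j + 3) := by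
      refine le_trans ?_ (fact_choose_le U.card (j + 3))
      rw [hF]
      refine mul_le_mul_of_nonneg_left ?_ (Nat.cast_nonneg _)
      rw [← card_powersetCard]
      exact_mod_cast card_filter_le _ _
    have h4 : F * ((4 * κ ^ 2) ^ 2 * (κ * x ^ (j + 2))) ≤ x ^ (j + 3) := by
      rw [hP]
      have : F * ((4 * κ ^ 2) ^ 2 * (κ * x ^ (j + 2))) = 16 * (κ ^ 5 * F) * x ^ (j + 2) := by ring
      rw [this]
      exact mul_le_mul_of_nonneg_right (by nlinarith) hQ.le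
    have h5 : 7 / 3 ≤ 4 * κ ^ 2 * (ell κ * (1 - 2 / κ)) := by
      have h6 : 8 / 3 ≤ 4 * κ ^ 2 * ell κ := by
        calc (8 / 3 : ℝ) = 4 * κ ^ 2 * (2 / (3 * κ ^ 2)) := by field_simp; ring
          _ ≤ _ := mul_le_mul_of_nonneg_left hl (by positivity)
      nlinarith
    have h7 : 0 < x ^ (j + 3) := by positivity
    nlinarith
  have hr : ((j + 3 : ℕ) : ℝ) = κ - 1 := by rw [hκ]; push_cast; ring
  have hz := zykov (T := Tw H ((j + 4) * U.card ^ (j + 2)))
    (G := Lt H ((j + 4) * U.card ^ (j + 1))) (fun a => Or.inl rfl) Tw.symm Lt.symm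
    (lt_of_tw (r := j + 3) hH hA) (U \ X) R.card hRpos hmax (30 / κ ^ 3) (20 * x / κ ^ 2) x
    (by positivity) (by rw [hV]; linarith [Nat.cast_nonneg (α := ℝ) X.card]) (j + 3) (U \ X)
    (Subset.refl _) (Or.inr ⟨?_, ?_, ?_, ?_⟩)
  · rw [hr, ← hF] at hz
    have hM1 : (1 : ℝ) ≤ R.card := by exact_mod_cast hRpos
    have h1 := hcl R (Subset.refl _)
    have h2 := ind_sdiff (Lt H ((j + 4) * U.card ^ (j + 1))) U X (j + 3)
    have h3 : ((Ind (Lt H ((j + 4) * U.card ^ (j + 1))) U (j + 3)).card : ℝ) ≤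
        (Ind (Lt H ((j + 4) * U.card ^ (j + 1))) (U \ X) (j + 3)).card + X.card * x ^ (j + 2) := by
      rw [hxdef]; exact_mod_cast h2
    have h4 : ((U \ X).card : ℝ) ^ (j + 3) ≤ x ^ (j + 3) :=
      pow_le_pow_left₀ (Nat.cast_nonneg _)
        (by rw [hV]; linarith [Nat.cast_nonneg (α := ℝ) X.card]) _
    have h6 := num_b hk hF1 hx hX hM1 hM hQ
    rw [← hP] at h6
    refine num_c hk hM1 (P := x ^ (j + 3)) (by positivity) ?_
    have e1 := mul_le_mul_of_nonneg_left h3 (show 0 ≤ F by linarith)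
    have e2 := hz.trans (mul_le_mul_of_nonneg_right h4 (Real.exp_pos _).le)
    rw [mul_add] at e1
    linarith
  · intro v hv'
    refine le_trans ?_ (hD v hv')
    exact_mod_cast card_le_card (nb_mono _ sdiff_subset v)
  · rw [hr, hV]
    have : (κ - 1) * (20 * x / κ ^ 2) ≤ x / 10 := by
      rw [mul_div_assoc', div_le_div_iff₀ (by positivity) (by norm_num)]
      nlinarith [mul_nonneg hx0.le (mul_nonneg hk0.le (show 0 ≤ κ - 200 by linarith))]
    nlinarith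
  · rw [hr]
    rw [mul_div_assoc', div_le_div_iff₀ (by positivity) (by norm_num)]
    nlinarith [mul_nonneg hx0.le (mul_nonneg hk0.le (show 0 ≤ κ - 200 by linarith))]
  · rw [hr]
    refine le_trans ?_ hcon.le
    have e : 860 * x ^ 2 / κ ^ 3 - (2 * (30 / κ ^ 3) * x ^ 2 + 2 * (κ - 1) * (20 * x / κ ^ 2) ^ 2) =
        800 * x ^ 2 / κ ^ 4 := by field_simp; ring
    have : 0 ≤ 800 * x ^ 2 / κ ^ 4 := by positivity
    linarith

omit [DecidableEq α] in
lemma pairs_mono {B B' : α → α → Prop} (h : ∀ a b, B a b → B' a b) (U : Finset α) :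
    pairs B U ≤ pairs B' U := by
  refine sum_le_sum fun v _ => Nat.cast_le.2 (card_le_card fun a ha => ?_)
  exact mem_nb.2 ⟨(mem_nb.1 ha).1, h _ _ (mem_nb.1 ha).2⟩

/-- the case of large minimum degree -/
lemma dense (hH : H ⊆ powersetCard (j + 4) U) (hA : AF H) {κ F : ℝ} (hκ : κ = j + 4)
    (hF : F = (j + 3).factorial) (hk : 200 ≤ κ) (hx : 100 * κ ^ 10 * F ^ 2 ≤ U.card)
    (hdeg : ∀ v ∈ U, ell κ * (1 - 1 / κ) * (U.card : ℝ) ^ (j + 3) ≤
      F * (H.filter (fun C => v ∈ C)).card) :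
    ∃ G ⊆ H, SF G ∧ F * H.card ≤ F * G.card + 52000 / κ ^ 3 * (U.card : ℝ) ^ (j + 3) := by
  have hF1 : 1 ≤ F := by rw [hF]; exact_mod_cast Nat.factorial_pos _
  have hk0 : 0 < κ := by linarith
  have hk1 : 1 ≤ κ := by linarith
  have hκ10 : 0 < κ ^ 10 := by positivity
  have hF2 : F ≤ F ^ 2 := by nlinarith
  have hxp : ∀ i ≤ 10, 100 * (κ ^ i * F) ≤ U.card := by
    intro i hi
    have : κ ^ i * F ≤ κ ^ 10 * F ^ 2 :=
      mul_le_mul (pow_le_pow_right₀ hk1 hi) hF2 (by linarith) hκ10.le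
    linarith
  have hx0 : (0 : ℝ) < U.card := lt_of_lt_of_le (by positivity) (hxp 0 (by norm_num))
  have hl := ell_ge hk
  have hl0 := ell_pos hk0
  have hP0 : 0 < (U.card : ℝ) ^ (j + 3) := by positivity
  obtain ⟨X, hXU, hX1, hX2⟩ := exc hH ((j + 4) * U.card ^ (j + 1))
    (θ := ell κ / κ * (U.card : ℝ) ^ (j + 3) / F) (by positivity)
  have hX : (X.card : ℝ) ≤ 2 * κ ^ 5 * F := by
    push_cast at hX1
    rw [← hκ] at hX1
    have e1 : κ * ((U.card : ℝ) ^ 2 * (κ * (U.card : ℝ) ^ (j + 1))) =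
        κ ^ 2 * (U.card : ℝ) ^ (j + 3) := by ring
    rw [e1] at hX1
    have e2 : (X.card : ℝ) * (ell κ / κ / F) ≤ κ ^ 2 := by
      refine le_of_mul_le_mul_right (le_trans (le_of_eq ?_) hX1) hP0
      ring
    have e3 : (X.card : ℝ) * (2 / (3 * κ ^ 2) / κ / F) ≤ κ ^ 2 := by
      refine le_trans (mul_le_mul_of_nonneg_left ?_ (Nat.cast_nonneg _)) e2
      gcongr
    have e4 := mul_le_mul_of_nonneg_right e3 (show 0 ≤ 3 / 2 * κ ^ 3 * F by positivity)
    have e5 : (X.card : ℝ) * (2 / (3 * κ ^ 2) / κ / F) * (3 / 2 * κ ^ 3 * F) = X.card := by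
      field_simp
    rw [e5] at e4
    have : 0 ≤ κ ^ 5 * F := by positivity
    nlinarith
  have hv : ∀ v ∈ U \ X, ell κ * (1 - 2 / κ) * (U.card : ℝ) ^ (j + 3) ≤
      F * (link (core H ((j + 4) * U.card ^ (j + 1))) v).card := by
    intro v hv
    have h1 := hdeg v (mem_sdiff.1 hv).1
    have h2 := mul_le_mul_of_nonneg_left (hX2 v hv) (show 0 ≤ F by linarith)
    have e : F * (ell κ / κ * (U.card : ℝ) ^ (j + 3) / F) = ell κ / κ * (U.card : ℝ) ^ (j + 3) := by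
      field_simp
    rw [mul_add, e] at h2
    have e2 : ell κ * (1 - 2 / κ) * (U.card : ℝ) ^ (j + 3) =
      ell κ * (1 - 1 / κ) * (U.card : ℝ) ^ (j + 3) - ell κ / κ * (U.card : ℝ) ^ (j + 3) := by ring
    linarith
  have hD : ∀ v ∈ U \ X,
      ((nb (Lt H ((j + 4) * U.card ^ (j + 1))) U v).card : ℝ) ≤ 20 * U.card / κ ^ 2 := by
    intro v hv'
    refine light_deg hH hA hκ hk ?_ (hF ▸ hv v hv')
    have := hxp 2 (by norm_num)
    nlinarith [sq_nonneg κ]
  have hb := few_mixed hH hA hκ hF hk hx hXU hX hv hD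
  set x : ℝ := (U.card : ℝ) with hxdef
  have hbad : pairs (Bad H) U ≤ 862 * x ^ 2 / κ ^ 3 := by
    have h1 := pairs_sdiff (B := Bad H) Bad.symm hXU (D := x) (fun v _ => by
      rw [hxdef]; exact_mod_cast card_le_card (nb_subset _ _ _))
    have h2 := pairs_mono (fun a b (h : Bad H a b) => bad_lt (r := j + 3) hH hA h) (U \ X)
    have h3 : (X.card : ℝ) * x ≤ x ^ 2 / κ ^ 3 := by
      rw [le_div_iff₀ (by positivity)]
      have h4 := hxp 8 (by norm_num)
      have h5 : (X.card : ℝ) * κ ^ 3 ≤ x := by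
        have := mul_le_mul_of_nonneg_right hX (show 0 ≤ κ ^ 3 by positivity)
        have : 0 ≤ κ ^ 8 * F := by positivity
        nlinarith
      nlinarith
    have e : 862 * x ^ 2 / κ ^ 3 = 860 * x ^ 2 / κ ^ 3 + 2 * (x ^ 2 / κ ^ 3) := by ring
    rw [e]
    exact h1.trans (add_le_add (h2.trans hb) (by linarith))
  have hXD : (X.card : ℝ) ≤ 20 * x / κ ^ 2 := by
    rw [le_div_iff₀ (by positivity)]
    have h4 := hxp 7 (by norm_num)
    have := mul_le_mul_of_nonneg_right hX (show 0 ≤ κ ^ 2 by positivity)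
    have : 0 ≤ κ ^ 7 * F := by positivity
    nlinarith
  set F3 : ℝ := ((j + 1).factorial : ℝ) with hF3
  have hF30 : 0 < F3 := by rw [hF3]; exact_mod_cast Nat.factorial_pos _
  have hFF : F = (κ - 1) * (κ - 2) * F3 := by
    rw [hF, hF3, hκ, Nat.factorial_succ (j + 2), Nat.factorial_succ (j + 1)]; push_cast; ring
  have hN : 0 < x ^ j := by positivity
  have hT : ∀ S : Finset α, S.card = 3 → ((thru H S).card : ℝ) ≤ 40 * x / κ ^ 2 * x ^ j / F3 := by
    intro S hS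
    have h1 := thru_three hH (ext_le (r := j + 3) hH hA X (by positivity) hD) hS
    have h2 := fact_choose_le U.card j
    have h3 : (0 : ℝ) < j.factorial := by exact_mod_cast Nat.factorial_pos _
    rw [le_div_iff₀ hF30, hF3, Nat.factorial_succ]
    push_cast
    have h4 := mul_le_mul_of_nonneg_left h1 h3.le
    have h5 : 20 * x / κ ^ 2 + X.card ≤ 40 * x / κ ^ 2 := by
      have : 40 * x / κ ^ 2 = 20 * x / κ ^ 2 + 20 * x / κ ^ 2 := by ring
      linarith
    have h6 := mul_le_mul h2 h5 (by positivity) hN.le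
    nlinarith
  obtain ⟨G, hG1, hG2, hG3⟩ := clean (r := j + 3) hH hA (by positivity) hT
  refine ⟨G, hG1, hG2, ?_⟩
  have e0 : j + 3 - 3 = j := by omega
  have e1 : ((j + 3 : ℕ) : ℝ) + 1 = κ := by rw [hκ]; push_cast; ring
  rw [e0, e1, ← hxdef] at hG3
  have h1 : κ ^ 2 * x ^ j ≤ 20 * x / κ ^ 2 * x ^ j / F3 := by
    rw [mul_div_right_comm]
    refine mul_le_mul_of_nonneg_right ?_ hN.le
    rw [div_div, le_div_iff₀ (by positivity)]
    have h4 := hxp 4 (by norm_num)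
    have h5 : F3 ≤ F := by
      rw [hFF]; exact le_mul_of_one_le_left hF30.le (by nlinarith)
    have h6 : κ ^ 4 * F3 ≤ κ ^ 4 * F := mul_le_mul_of_nonneg_left h5 (by positivity)
    have : 0 ≤ κ ^ 4 * F := by positivity
    nlinarith
  have h2 : 40 * x / κ ^ 2 * x ^ j / F3 + κ ^ 2 * x ^ j ≤ 60 * x / κ ^ 2 * x ^ j / F3 := by
    have : 60 * x / κ ^ 2 * x ^ j / F3 =
      40 * x / κ ^ 2 * x ^ j / F3 + 20 * x / κ ^ 2 * x ^ j / F3 := by ring
    linarith
  have h3 := mul_le_mul hbad h2 (by positivity) (by positivity)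
  have h4 : F * (862 * x ^ 2 / κ ^ 3 * (60 * x / κ ^ 2 * x ^ j / F3)) ≤
      52000 / κ ^ 3 * x ^ (j + 3) := by
    have e : F * (862 * x ^ 2 / κ ^ 3 * (60 * x / κ ^ 2 * x ^ j / F3)) =
        51720 * ((κ - 1) * (κ - 2) / κ ^ 2) / κ ^ 3 * x ^ (j + 3) := by
      rw [hFF]; field_simp; ring
    rw [e]
    have : (κ - 1) * (κ - 2) / κ ^ 2 ≤ 1 := by
      rw [div_le_one (by positivity)]; nlinarith
    gcongr
    linarith
  have h5 := mul_le_mul_of_nonneg_left (hG3.trans (add_le_add le_rfl h3)) (show 0 ≤ F by linarith)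
  rw [mul_add] at h5
  linarith

end

end Pool.Agent.MP_6574cc_co.H69
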