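import Mathlib
import Pool.Agent.MP_6574cc_co.H69.Dense

/-!
Progressive induction and the uniform ratio bound.
-/

namespace Pool.Agent.MP_6574cc_co.H69

open Finset
open scoped Classical

variable {α : Type*} [DecidableEq α]

lemma sf_lower' (r : ℕ) (hr : 1 ≤ r) (U : Finset α) {κ x : ℝ} (hκ : κ = r + 1)
    (hx : κ ^ 2 * (1 + κ * (κ * (κ + 1) / 2)) ≤ x) (hU : x - 1 ≤ U.card) :
    ∃ G ⊆ powersetCard (r + 1) U, SF G ∧
      ell κ * (1 - 1 / κ) * x ^ (r + 1) ≤ κ * (r.factorial : ℝ) * G.card := by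
  have hr' : (1 : ℝ) ≤ r := by exact_mod_cast hr
  have hk : 2 ≤ κ := by linarith
  have hk0 : 0 < κ := by linarith
  obtain ⟨c, hc⟩ : ∃ c : ℝ, c = 1 + κ * (κ * (κ + 1) / 2) := ⟨_, rfl⟩
  have hc0 : 0 < c := by rw [hc]; positivity
  rw [← hc] at hx
  have hcx : c ≤ x := le_trans (le_mul_of_one_le_left hc0.le (by nlinarith)) hx
  have hx0 : 0 < x := by linarith
  have hκ' : ((r + 1 : ℕ) : ℝ) = κ := by rw [hκ]; push_cast; rfl
  obtain ⟨G, h1, h2, h3⟩ := sf_lower (r + 1) (by omega) U (q := κ * (κ + 1) / 2)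
    (by rw [hκ']) (by rw [hκ']; linarith)
  refine ⟨G, h1, h2, ?_⟩
  rw [Nat.factorial_succ, Nat.cast_mul, hκ'] at h3
  refine le_trans ?_ h3
  rw [mul_assoc]
  refine mul_le_mul_of_nonneg_left ?_ (ell_pos hk0).le
  have h4 : x * (1 + -(c / x)) ≤ U.card - κ * (κ * (κ + 1) / 2) := by
    have : x * (1 + -(c / x)) = x - c := by field_simp; ring
    linarith
  have h5 : c / x ≤ 1 := (div_le_one hx0).2 hcx
  have h6 := one_add_mul_le_pow (a := -(c / x)) (by linarith) (r + 1)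
  rw [hκ'] at h6
  have h7 : κ * (c / x) ≤ 1 / κ := by
    rw [mul_div_assoc', div_le_div_iff₀ hx0 hk0]; nlinarith
  calc (1 - 1 / κ) * x ^ (r + 1) ≤ (1 + -(c / x)) ^ (r + 1) * x ^ (r + 1) :=
        mul_le_mul_of_nonneg_right (by linarith) (by positivity)
    _ = (x * (1 + -(c / x))) ^ (r + 1) := by rw [mul_pow, mul_comm]
    _ ≤ _ := pow_le_pow_left₀ (mul_nonneg hx0.le (by linarith)) h4 _

lemma progressive (r : ℕ) (hr : 1 ≤ r) {κ F E n₁ : ℝ} (hκ : κ = r + 1) (hF : F = r.factorial)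
    (hE : 0 ≤ E) (hn₁ : κ ^ 2 * (1 + κ * (κ * (κ + 1) / 2)) ≤ n₁)
    (step : ∀ (U : Finset α) (H : Finset (Finset α)), H ⊆ powersetCard (r + 1) U → AF H →
      n₁ ≤ U.card → (∀ v ∈ U, ell κ * (1 - 1 / κ) * (U.card : ℝ) ^ r ≤
        F * (H.filter (fun C => v ∈ C)).card) →
      ∃ G ⊆ H, SF G ∧ F * H.card ≤ F * G.card + E * (U.card : ℝ) ^ r) (U : Finset α) :
    ∀ H ⊆ powersetCard (r + 1) U, AF H → ∃ G ⊆ powersetCard (r + 1) U, SF G ∧
      F * H.card ≤ F * G.card + max (E * (U.card : ℝ) ^ r) (F * n₁ ^ (r + 1)) := by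
  have hr' : (1 : ℝ) ≤ r := by exact_mod_cast hr
  have hk : 2 ≤ κ := by linarith
  have hF0 : 0 < F := by rw [hF]; exact_mod_cast Nat.factorial_pos _
  induction U using Finset.strongInduction with
  | H U ih =>
  intro H hH hA
  by_cases hsmall : (U.card : ℝ) < n₁
  · refine ⟨∅, empty_subset _, fun _ _ _ _ _ _ h => by simp at h, ?_⟩
    have h1 : H.card ≤ U.card ^ (r + 1) := (card_le_card hH).trans (by
      rw [card_powersetCard]; exact Nat.choose_le_pow U.card (r + 1))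
    have h2 : (H.card : ℝ) ≤ (U.card : ℝ) ^ (r + 1) := by exact_mod_cast h1
    have h3 := pow_le_pow_left₀ (Nat.cast_nonneg _) hsmall.le (r + 1)
    simp only [card_empty, Nat.cast_zero, mul_zero, zero_add]
    exact le_max_of_le_right (mul_le_mul_of_nonneg_left (h2.trans h3) hF0.le)
  rw [not_lt] at hsmall
  by_cases hdeg : ∀ v ∈ U, ell κ * (1 - 1 / κ) * (U.card : ℝ) ^ r ≤
      F * (H.filter (fun C => v ∈ C)).card
  · obtain ⟨G, h1, h2, h3⟩ := step U H hH hA hsmall hdeg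
    exact ⟨G, h1.trans hH, h2, h3.trans (add_le_add le_rfl (le_max_left _ _))⟩
  simp only [not_forall, not_le] at hdeg
  obtain ⟨v, hv, hdeg⟩ := hdeg
  obtain ⟨G₁, a1, a2, a3⟩ := ih (U.erase v) (erase_ssubset hv) _ (filter_notMem_subset hH v)
    (hA.mono (filter_subset _ _))
  have hc : ((U.erase v).card : ℝ) + 1 = U.card := by exact_mod_cast card_erase_add_one hv
  obtain ⟨G₀, b1, b2, b3⟩ := sf_lower' r hr (U.erase v) (x := U.card) hκ (hn₁.trans hsmall)
    (by linarith)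
  rw [← hF] at b3
  obtain ⟨G', c1, c2, c3, c4⟩ : ∃ G' ⊆ powersetCard (r + 1) (U.erase v), SF G' ∧
      G₁.card ≤ G'.card ∧ G₀.card ≤ G'.card := by
    rcases le_total G₁.card G₀.card with h | h
    · exact ⟨G₀, b1, b2, h, le_rfl⟩
    · exact ⟨G₁, a1, a2, le_rfl, h⟩
  have hy : (0 : ℝ) < (U.erase v).card := by
    have : 0 ≤ κ * (κ * (κ + 1) / 2) := by positivity
    nlinarith
  obtain ⟨G, d1, d2, d3⟩ := clone hv c1 c2 (card_pos.1 (by exact_mod_cast hy))
  refine ⟨G, d1, d2, ?_⟩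
  have d4 : ((U.erase v).card : ℝ) * G'.card + κ * G'.card ≤ (U.erase v).card * G.card := by
    rw [hκ]; exact_mod_cast d3
  have c3' : (G₁.card : ℝ) ≤ G'.card := by exact_mod_cast c3
  have c4' : (G₀.card : ℝ) ≤ G'.card := by exact_mod_cast c4
  have h4 : (H.card : ℝ) =
      (H.filter (fun C => v ∈ C)).card + (H.filter (fun C => ¬ v ∈ C)).card := by
    exact_mod_cast (card_filter_add_card_filter_not (s := H) (fun C => v ∈ C)).symm
  have h5 : max (E * ((U.erase v).card : ℝ) ^ r) (F * n₁ ^ (r + 1)) ≤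
      max (E * (U.card : ℝ) ^ r) (F * n₁ ^ (r + 1)) :=
    max_le_max (mul_le_mul_of_nonneg_left (pow_le_pow_left₀ hy.le (by linarith) r) hE) le_rfl
  have h6 : F * G'.card + F * (H.filter (fun C => v ∈ C)).card ≤ F * G.card := by
    refine le_of_mul_le_mul_left ?_ hy
    have e1 : ((U.erase v).card : ℝ) * (F * (H.filter (fun C => v ∈ C)).card) ≤
        U.card * (ell κ * (1 - 1 / κ) * (U.card : ℝ) ^ r) :=
      mul_le_mul (by linarith) hdeg.le (by positivity) (by positivity)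
    have e2 : U.card * (ell κ * (1 - 1 / κ) * (U.card : ℝ) ^ r) =
        ell κ * (1 - 1 / κ) * (U.card : ℝ) ^ (r + 1) := by ring
    have e3 : κ * F * G₀.card ≤ κ * F * G'.card := mul_le_mul_of_nonneg_left c4' (by positivity)
    have e4 := mul_le_mul_of_nonneg_left d4 hF0.le
    nlinarith
  have h7 := mul_le_mul_of_nonneg_left c3' hF0.le
  rw [h4, mul_add]
  linarith

lemma transfer (r : ℕ) (hr : 1 ≤ r) {κ F E n₁ c : ℝ} (hκ : κ = r + 1) (hF : F = r.factorial)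
    (hE : 0 ≤ E) (hn₁ : κ ^ 2 * (1 + κ * (κ * (κ + 1) / 2)) ≤ n₁) (hc : 2 * κ * E / ell κ ≤ c)
    (step : ∀ (U : Finset α) (H : Finset (Finset α)), H ⊆ powersetCard (r + 1) U → AF H →
      n₁ ≤ U.card → (∀ v ∈ U, ell κ * (1 - 1 / κ) * (U.card : ℝ) ^ r ≤
        F * (H.filter (fun C => v ∈ C)).card) →
      ∃ G ⊆ H, SF G ∧ F * H.card ≤ F * G.card + E * (U.card : ℝ) ^ r) (U : Finset α)
    (hU : n₁ ≤ U.card) (hU' : F * n₁ ^ (r + 1) ≤ E * U.card) :
    ∀ H ⊆ powersetCard (r + 1) U, AF H → ∃ G ⊆ powersetCard (r + 1) U, SF G ∧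
      (H.card : ℝ) ≤ (1 + c / U.card) * G.card := by
  intro H hH hA
  have hr' : (1 : ℝ) ≤ r := by exact_mod_cast hr
  have hk : 2 ≤ κ := by linarith
  have hk0 : 0 < κ := by linarith
  have hF0 : 0 < F := by rw [hF]; exact_mod_cast Nat.factorial_pos _
  have hx1 : (1 : ℝ) ≤ U.card := by
    have : 0 ≤ κ * (κ * (κ + 1) / 2) := by positivity
    nlinarith
  have hx0 : (0 : ℝ) < U.card := by linarith
  have hl := ell_pos hk0
  obtain ⟨G₁, a1, a2, a3⟩ := progressive r hr hκ hF hE hn₁ step U H hH hA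
  obtain ⟨G₀, b1, b2, b3⟩ := sf_lower' r hr U (x := U.card) hκ (hn₁.trans hU) (by linarith)
  rw [← hF] at b3
  obtain ⟨G, c1, c2, c3, c4⟩ : ∃ G' ⊆ powersetCard (r + 1) U, SF G' ∧
      G₁.card ≤ G'.card ∧ G₀.card ≤ G'.card := by
    rcases le_total G₁.card G₀.card with h | h
    · exact ⟨G₀, b1, b2, h, le_rfl⟩
    · exact ⟨G₁, a1, a2, le_rfl, h⟩
  have c3' : (G₁.card : ℝ) ≤ G.card := by exact_mod_cast c3
  have c4' : (G₀.card : ℝ) ≤ G.card := by exact_mod_cast c4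
  refine ⟨G, c1, c2, ?_⟩
  have h1 : F * n₁ ^ (r + 1) ≤ E * (U.card : ℝ) ^ r :=
    hU'.trans (mul_le_mul_of_nonneg_left (le_self_pow₀ hx1 (by omega)) hE)
  rw [max_eq_left h1] at a3
  have h2 : ell κ / 2 * (U.card : ℝ) ^ (r + 1) ≤ κ * F * G.card := by
    refine le_trans ?_ (b3.trans (mul_le_mul_of_nonneg_left c4' (by positivity)))
    refine mul_le_mul_of_nonneg_right ?_ (by positivity)
    have : 1 / κ ≤ 1 / 2 := one_div_le_one_div_of_le (by norm_num) hk
    nlinarith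
  have h3 : E * (U.card : ℝ) ^ r ≤ F * (c / U.card * G.card) := by
    calc E * (U.card : ℝ) ^ r
        = 2 * E / ell κ / U.card * (ell κ / 2 * (U.card : ℝ) ^ (r + 1)) := by field_simp; ring
      _ ≤ 2 * E / ell κ / U.card * (κ * F * G.card) :=
          mul_le_mul_of_nonneg_left h2 (by positivity)
      _ = F * (2 * κ * E / ell κ / U.card * G.card) := by ring
      _ ≤ _ := by gcongr
  refine le_of_mul_le_mul_left ?_ hF0
  have h4 := mul_le_mul_of_nonneg_left c3' hF0.le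
  nlinarith

/-- uniform ratio bound for `k ≥ 3` -/
lemma uniform : ∃ c : ℝ, 0 ≤ c ∧ ∀ r : ℕ, 2 ≤ r → ∃ n₀ : ℕ, ∀ (β : Type) [DecidableEq β]
    (U : Finset β), n₀ < U.card → ∀ H ⊆ powersetCard (r + 1) U, AF H →
      ∃ G ⊆ powersetCard (r + 1) U, SF G ∧ (H.card : ℝ) ≤ (1 + c / U.card) * G.card := by
  set g : ℕ → ℝ := fun r => 2 * ((r : ℝ) + 1) * (((r : ℝ) + 1) * r.factorial) / ell (r + 1) with hg
  have hg0 : ∀ r, 0 ≤ g r := fun r => by
    have := ell_pos (κ := (r : ℝ) + 1) (by positivity)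
    simp only [hg]; positivity
  have hs0 : 0 ≤ ∑ r ∈ range 200, g r := sum_nonneg fun r _ => hg0 r
  refine ⟨156000 + ∑ r ∈ range 200, g r, by linarith, fun r hr => ?_⟩
  obtain ⟨κ, hκ⟩ : ∃ κ : ℝ, κ = r + 1 := ⟨_, rfl⟩
  obtain ⟨F, hF⟩ : ∃ F : ℝ, F = r.factorial := ⟨_, rfl⟩
  have hF0 : 0 < F := by rw [hF]; exact_mod_cast Nat.factorial_pos _
  have hk0 : 0 < κ := by rw [hκ]; positivity
  obtain ⟨n₁, hn₁⟩ : ∃ n₁ : ℝ,
    n₁ = κ ^ 2 * (1 + κ * (κ * (κ + 1) / 2)) + 100 * κ ^ 10 * F ^ 2 := ⟨_, rfl⟩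
  have p1 : 0 ≤ κ ^ 2 * (1 + κ * (κ * (κ + 1) / 2)) := by positivity
  have p2 : 0 ≤ 100 * κ ^ 10 * F ^ 2 := by positivity
  have key : ∀ E : ℝ, 0 < E → ∃ n₀ : ℕ, ∀ m : ℕ, n₀ < m → n₁ ≤ m ∧ F * n₁ ^ (r + 1) ≤ E * m := by
    intro E hE
    obtain ⟨n₀, h⟩ := exists_nat_ge (max n₁ (F * n₁ ^ (r + 1) / E))
    refine ⟨n₀, fun m hm => ?_⟩
    have h1 : (n₀ : ℝ) ≤ m := by exact_mod_cast hm.le
    have h2 := (le_max_right _ _).trans (h.trans h1)
    rw [div_le_iff₀ hE] at h2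
    exact ⟨(le_max_left _ _).trans (h.trans h1), by linarith⟩
  by_cases hbig : r < 200
  · obtain ⟨n₀, h⟩ := key (κ * F) (by positivity)
    refine ⟨n₀, fun β _ U hU => transfer r (by omega) hκ hF (E := κ * F) (n₁ := n₁)
      (by positivity) (by linarith) ?_ ?_ U (h _ hU).1 (h _ hU).2⟩
    · have := single_le_sum (f := g) (fun r _ => hg0 r) (mem_range.2 hbig)
      have e : g r = 2 * κ * (κ * F) / ell κ := by rw [hκ, hF]
      linarith
    · intro W H hH hA _ _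
      refine ⟨core H ((r + 1) * W.card ^ (r - 2)), core_subset _, sf_core hH hA, ?_⟩
      have h1 := card_noncore hH ((r + 1) * W.card ^ (r - 2))
      have h2 := card_filter_add_card_filter_not (s := H)
        (Indep (Lt H ((r + 1) * W.card ^ (r - 2))))
      have h3 : W.card ^ 2 * ((r + 1) * W.card ^ (r - 2)) = (r + 1) * W.card ^ r := by
        obtain ⟨j, rfl⟩ := Nat.exists_eq_add_of_le hr
        rw [Nat.add_sub_cancel_left]; ring
      have h4 : H.card ≤ (core H ((r + 1) * W.card ^ (r - 2))).card + (r + 1) * W.card ^ r := by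
        unfold core; omega
      have h5 : (H.card : ℝ) ≤
          (core H ((r + 1) * W.card ^ (r - 2))).card + κ * (W.card : ℝ) ^ r := by
        rw [hκ]; exact_mod_cast h4
      nlinarith
  · obtain ⟨n₀, h⟩ := key (52000 / κ ^ 3) (by positivity)
    have hk : 200 ≤ κ := by
      have : (200 : ℝ) ≤ r := by exact_mod_cast not_lt.1 hbig
      linarith
    refine ⟨n₀, fun β _ U hU => transfer r (by omega) hκ hF (E := 52000 / κ ^ 3) (n₁ := n₁)
      (by positivity) (by linarith) ?_ ?_ U (h _ hU).1 (h _ hU).2⟩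
    · have h1 : 2 * κ * (52000 / κ ^ 3) / ell κ ≤ 2 * κ * (52000 / κ ^ 3) / (2 / (3 * κ ^ 2)) :=
        div_le_div_of_nonneg_left (by positivity) (by positivity) (ell_ge hk)
      have e : 2 * κ * (52000 / κ ^ 3) / (2 / (3 * κ ^ 2)) = 156000 := by field_simp; ring
      linarith
    · intro W H hH hA hW hdeg
      obtain ⟨j, rfl⟩ : ∃ j, r = j + 3 := ⟨r - 3, by omega⟩
      exact dense hH hA (by rw [hκ]; push_cast; ring) hF hk (by linarith) hdeg

lemma af_of {k : ℕ} {H : Finset (Finset α)} {U : Finset α} (hH : H ⊆ powersetCard k U)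
    (h : ∀ A ∈ H, ∀ B ∈ H, ∀ C ∈ H, (A ∩ B).card = k - 1 → symmDiff A B ⊆ C →
      Disjoint C (A ∩ B) → False) : AF H := by
  intro Z a b hab ha hb h1 h2 C hC h3 h4 h5
  have e : insert a Z ∩ insert b Z = Z := by
    ext x; simp only [mem_inter, mem_insert]
    constructor
    · rintro ⟨h | h, h' | h'⟩
      · exact absurd (h.symm.trans h') hab
      all_goals assumption
    · exact fun h => ⟨Or.inr h, Or.inr h⟩
  refine h _ h1 _ h2 C hC ?_ ?_ (by rwa [e])
  · rw [e, ← (mem_powersetCard.1 (hH h1)).2, card_insert_of_notMem ha]; rfl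
  · intro x hx
    simp only [mem_symmDiff, mem_insert, not_or] at hx
    rcases hx with ⟨h | h, h'⟩ | ⟨h | h, h'⟩
    · exact h ▸ h3
    · exact absurd h h'.2
    · exact h ▸ h4
    · exact absurd h h'.2

lemma of_sf {r : ℕ} {G : Finset (Finset α)} {U : Finset α} (hG : G ⊆ powersetCard (r + 1) U)
    (h : SF G) : ∀ A ∈ G, ∀ B ∈ G, ∀ C ∈ G, (A ∩ B).card = r + 1 - 1 → symmDiff A B ⊆ C →
      False := by
  intro A hA B hB C hC h1 h2
  have cA := (mem_powersetCard.1 (hG hA)).2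
  have cB := (mem_powersetCard.1 (hG hB)).2
  have e1 := card_sdiff_add_card_inter A B
  have e2 := card_sdiff_add_card_inter B A
  rw [inter_comm] at e2
  obtain ⟨a, ha⟩ := card_eq_one.1 (show (A \ B).card = 1 by omega)
  obtain ⟨b, hb⟩ := card_eq_one.1 (show (B \ A).card = 1 by omega)
  have ha' : a ∈ A \ B := by rw [ha]; exact mem_singleton_self _
  have hb' : b ∈ B \ A := by rw [hb]; exact mem_singleton_self _
  obtain ⟨a1, a2⟩ := mem_sdiff.1 ha'
  obtain ⟨b1, b2⟩ := mem_sdiff.1 hb'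
  refine h (A ∩ B) a b (fun e => a2 (e ▸ b1)) (fun e => a2 (mem_inter.1 e).2)
    (fun e => b2 (mem_inter.1 e).1) ?_ ?_ C hC (h2 (mem_symmDiff.2 (Or.inl ⟨a1, a2⟩)))
    (h2 (mem_symmDiff.2 (Or.inr ⟨b1, b2⟩)))
  · rw [insert_eq, ← ha, sdiff_union_inter]; exact hA
  · rw [insert_eq, ← hb, inter_comm, sdiff_union_inter]; exact hB

lemma sf_two {H : Finset (Finset α)} {U : Finset α} (hH : H ⊆ powersetCard 2 U) (h : AF H) :
    SF H := by
  intro Z a b hab ha hb h1 h2 C hC h3 h4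
  refine h Z a b hab ha hb h1 h2 C hC h3 h4 ?_
  have : ({a, b} : Finset α) = C := eq_of_subset_of_card_le
    (insert_subset h3 (singleton_subset_iff.2 h4))
    (by rw [(mem_powersetCard.1 (hH hC)).2, card_pair hab])
  rw [← this]; simp [ha, hb]

end Pool.Agent.MP_6574cc_co.H69
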